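import Pool.Agent.MP_c1dca2_ag.SUP.K7
import Pool.Agent.MP_c1dca2_ag.SUP.K9

/-!
# [SUE-W1] Splitting off the roots of multiplicity divisible by `ℓ`
-/

set_option autoImplicit false

open Polynomial UniqueFactorizationMonoid

namespace SUE

/-- `ℓ` divides the degree of `F`, and `F` has at least three roots of multiplicity not divisible by
`ℓ`, all of them are roots of `g`. -/
structure AdmR {E : Type} [Field E] (ℓ : ℕ) (F g : E[X]) : Prop where
  deg : ℓ ∣ F.natDegree
  three : 3 ≤ Nat.card {x : AlgebraicClosure E //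
    ¬ ℓ ∣ (F.map (algebraMap E (AlgebraicClosure E))).rootMultiplicity x}
  roots : ∀ x : AlgebraicClosure E,
    ¬ ℓ ∣ (F.map (algebraMap E (AlgebraicClosure E))).rootMultiplicity x → aeval x g = 0

variable {E : Type} [Field E]

theorem normalize_factor [DecidableEq E] (F : E[X]) (p : E[X]) (hp : p ∈ normalizedFactors F) :
    normalize p = p := normalize_normalized_factor p hp

theorem monic_factor [DecidableEq E] (F : E[X]) (p : E[X]) (hp : p ∈ normalizedFactors F) :
    p.Monic := by
  rw [← normalize_factor F p hp]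
  exact monic_normalize (irreducible_of_normalized_factor p hp).ne_zero

theorem AdmR.reduce [CharZero E] {ℓ : ℕ} (hℓ : ℓ.Prime) {F g : E[X]} (h : AdmR ℓ F g)
    (hF : F ≠ 0) :
    ∃ F₀ H g₁ : E[X], F = C F.leadingCoeff * (F₀ * H ^ ℓ) ∧ F₀.Monic ∧ H.Monic ∧ g₁.Monic ∧
      g₁ ∣ g ∧ 3 ≤ g₁.natDegree ∧ SUP.Adm ℓ F₀ g₁ := by
  classical
  set s := normalizedFactors F with hs
  have hsirr : ∀ p ∈ s, Irreducible p := fun p hp => irreducible_of_normalized_factor p hp
  have hsm : ∀ p ∈ s, p.Monic := fun p hp => monic_factor F p hp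
  set s₁ := s.filter (fun p => ¬ ℓ ∣ s.count p) with hs₁
  set s₂ := s.filter (fun p => ℓ ∣ s.count p) with hs₂
  have hs12 : s₂ + s₁ = s := Multiset.filter_add_not _ _
  have hs1s : ∀ p ∈ s₁, p ∈ s := fun p hp => (Multiset.mem_filter.1 hp).1
  have hs2s : ∀ p ∈ s₂, p ∈ s := fun p hp => (Multiset.mem_filter.1 hp).1
  obtain ⟨s₃, hs₃⟩ : ∃ s₃, s₂ = ℓ • s₃ := by
    apply Multiset.exists_smul_of_dvd_count
    intro p hp
    rw [hs₂, Multiset.count_filter, if_pos (Multiset.mem_filter.1 hp).2]
    exact (Multiset.mem_filter.1 hp).2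
  have hs3s : ∀ p ∈ s₃, p ∈ s := by
    intro p hp
    apply hs2s
    rw [hs₃]
    exact Multiset.mem_nsmul.2 ⟨hℓ.ne_zero, hp⟩
  set F₀ := s₁.prod with hF₀
  set H := s₃.prod with hH
  have hF₀m : F₀.Monic := by
    rw [hF₀, ← Multiset.map_id s₁]
    exact monic_multiset_prod_of_monic s₁ id fun p hp => hsm p (hs1s p hp)
  have hHm : H.Monic := by
    rw [hH, ← Multiset.map_id s₃]
    exact monic_multiset_prod_of_monic s₃ id fun p hp => hsm p (hs3s p hp)
  have hFeq : F = C F.leadingCoeff * (F₀ * H ^ ℓ) := by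
    conv_lhs => rw [← leadingCoeff_mul_prod_normalizedFactors F]
    rw [← hs, ← hs12, Multiset.prod_add, hs₃, Multiset.prod_nsmul, mul_comm (s₃.prod ^ ℓ)]
  have hnf : normalizedFactors F₀ = s₁ := by
    rw [hF₀, normalizedFactors_prod_eq s₁ fun p hp => hsirr p (hs1s p hp)]
    conv_rhs => rw [← Multiset.map_id s₁]
    exact Multiset.map_congr rfl fun p hp => normalize_factor F p (hs1s p hp)
  have hcount : ∀ p : E[X], Irreducible p → multiplicity p F = s.count (normalize p) := by
    intro p hp
    rw [multiplicity_eq_of_emultiplicity_eq_some]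
    rw [emultiplicity_eq_count_normalizedFactors hp hF]
  have hcount₀ : ∀ p : E[X], Irreducible p → multiplicity p F₀ = s₁.count (normalize p) := by
    intro p hp
    rw [multiplicity_eq_of_emultiplicity_eq_some]
    rw [emultiplicity_eq_count_normalizedFactors hp hF₀m.ne_zero, hnf]
  set g₁ : E[X] := ∏ p ∈ s₁.toFinset, p with hg₁
  have hg₁m : g₁.Monic := monic_prod_of_monic _ _ fun p hp =>
    hsm p (hs1s p (Multiset.mem_toFinset.1 hp))
  have hdvd : ∀ p ∈ s₁, p ∣ g := by
    intro p hp
    have hpi := hsirr p (hs1s p hp)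
    obtain ⟨ρ, hρ⟩ := IsAlgClosed.exists_aeval_eq_zero (AlgebraicClosure E) p
      (degree_pos_of_irreducible hpi).ne'
    refine SUP.k7_dvd p g hpi ρ hρ (h.roots ρ ?_)
    rw [SUP.rootMultiplicity_eq p F hpi hF ρ hρ, hcount p hpi, normalize_factor F p (hs1s p hp)]
    exact (Multiset.mem_filter.1 hp).2
  refine ⟨F₀, H, g₁, hFeq, hF₀m, hHm, hg₁m, ?_, ?_, ?_, ?_, ?_⟩
  · refine Finset.prod_dvd_of_coprime ?_ fun p hp => hdvd p (Multiset.mem_toFinset.1 hp)
    intro p hp q hq hpq
    have hp' := hs1s p (Multiset.mem_toFinset.1 hp)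
    have hq' := hs1s q (Multiset.mem_toFinset.1 hq)
    refine ((hsirr p hp').coprime_iff_not_dvd).2 fun hd => hpq ?_
    exact eq_of_monic_of_associated (hsm p hp') (hsm q hq')
      ((hsirr p hp').associated_of_dvd (hsirr q hq') hd)
  · -- three roots
    refine h.three.trans ?_
    have hne : g₁.map (algebraMap E (AlgebraicClosure E)) ≠ 0 := (hg₁m.map _).ne_zero
    have hsub : ∀ x : {x : AlgebraicClosure E //
        ¬ ℓ ∣ (F.map (algebraMap E (AlgebraicClosure E))).rootMultiplicity x},
        x.1 ∈ (g₁.map (algebraMap E (AlgebraicClosure E))).roots.toFinset := by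
      rintro ⟨x, hx⟩
      rw [Multiset.mem_toFinset, mem_roots hne, IsRoot.def, eval_map_algebraMap]
      have hint : IsIntegral E x := Algebra.IsIntegral.isIntegral x
      have hpi := minpoly.irreducible hint
      have hx' := hx
      rw [SUP.rootMultiplicity_eq (minpoly E x) F hpi hF x (minpoly.aeval E x),
        hcount _ hpi] at hx'
      have hmn : normalize (minpoly E x) = minpoly E x := (minpoly.monic hint).normalize_eq_self
      rw [hmn] at hx'
      have hmem : minpoly E x ∈ s := by
        rw [← Multiset.count_pos]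
        exact Nat.pos_of_ne_zero fun h0 => hx' (by rw [h0]; exact dvd_zero _)
      have hmem₁ : minpoly E x ∈ s₁.toFinset := Multiset.mem_toFinset.2
        (Multiset.mem_filter.2 ⟨hmem, hx'⟩)
      obtain ⟨u, hu⟩ := Finset.dvd_prod_of_mem (fun p : E[X] => p) hmem₁
      have hu' : g₁ = minpoly E x * u := hu
      rw [hu', map_mul, minpoly.aeval, zero_mul]
    have h1 : Nat.card {x : AlgebraicClosure E //
        ¬ ℓ ∣ (F.map (algebraMap E (AlgebraicClosure E))).rootMultiplicity x} ≤
        Nat.card ((g₁.map (algebraMap E (AlgebraicClosure E))).roots.toFinset :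
          Finset (AlgebraicClosure E)) :=
      Nat.card_le_card_of_injective (fun x => ⟨x.1, hsub x⟩) (fun x y hxy => by
        rw [Subtype.mk.injEq] at hxy
        exact Subtype.ext hxy)
    refine h1.trans ?_
    rw [Nat.card_eq_fintype_card, Fintype.card_coe]
    refine (Multiset.toFinset_card_le _).trans ((card_roots' _).trans ?_)
    rw [natDegree_map]
  · intro p hp
    constructor
    · intro hd
      obtain ⟨q, hq, hpq⟩ := exists_mem_normalizedFactors_of_dvd hF₀m.ne_zero hp hd
      rw [hnf] at hq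
      exact hpq.dvd.trans (Finset.dvd_prod_of_mem (fun p : E[X] => p) (Multiset.mem_toFinset.2 hq))
    · intro hd
      obtain ⟨q, hq, hpq⟩ := hp.prime.exists_mem_finset_dvd hd
      exact hpq.trans (Multiset.dvd_prod (Multiset.mem_toFinset.1 hq))
  · intro p hp hd
    obtain ⟨q, hq, hpq⟩ := exists_mem_normalizedFactors_of_dvd hF₀m.ne_zero hp hd
    rw [hnf] at hq
    have hn : normalize p = q := by
      rw [← normalize_factor F q (hs1s q hq)]
      exact normalize_eq_normalize_iff_associated.2 hpq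
    rw [hcount₀ p hp, hn, hs₁, Multiset.count_filter, if_pos (Multiset.mem_filter.1 hq).2]
    exact (Multiset.mem_filter.1 hq).2
  · have h1 : F.natDegree = F₀.natDegree + ℓ * H.natDegree := by
      conv_lhs => rw [hFeq]
      rw [natDegree_C_mul (leadingCoeff_ne_zero.2 hF), hF₀m.natDegree_mul (hHm.pow ℓ),
        hHm.natDegree_pow]
    have h2 := h.deg
    rw [h1] at h2
    exact (Nat.dvd_add_left (dvd_mul_right _ _)).1 h2

end SUE
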