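import Pool.Agent.MP_c1dca2_ag.SUE.V2
import Pool.Agent.MP_c1dca2_ag.SUE.W1

/-!
# [SUE-V3] The local theorem over all extensions whose degree is not in a semigroup
-/

set_option autoImplicit false

open NumberField IsLocalRing Polynomial IsDedekindDomain

namespace SUE

/-- For all finite extensions `E / K` whose degree is not in the numerical semigroup generated by
`ℓ` and `S`, all exponents `m` divisible by `ℓ` and all `F ∈ E[X]` with at least three roots of
multiplicity not divisible by `ℓ`, which are roots of `g` (`AdmR`), and whose leading coefficient is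
an element of `Λ` times an `ℓ`-th power: the section conjecture holds for all curves over `E` with a
nonconstant map to `y^m = F(x)`, and they have neither sections nor rational points. -/
def SecExt (K : Type) [Field K] (S : Set ℕ) (ℓ : ℕ) (g : K[X]) (Λ : Set K) : Prop :=
  ∀ (E : Type) [Field E] [Algebra K E] [FiniteDimensional K E],
    Module.finrank K E ∉ AddSubmonoid.closure (insert ℓ S) →
    ∀ (m : ℕ) (F : E[X]), ℓ ∣ m → F ≠ 0 → AdmR ℓ F (g.map (algebraMap K E)) →
      (∃ c ∈ Λ, ∃ b : E, F.leadingCoeff = algebraMap K E c * b ^ ℓ) → SUP.NoSec E m F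

/-- The polynomial `g` has good reduction with respect to `A`, and the degree of every prime
factor of the reduction is divisible by an element of `Per`. -/
def GoodFor {k : Type} [Field k] (Per : Set ℕ) (g : k[X]) (A : ValuationSubring k) : Prop :=
  ∃ g' : A[X], g'.map A.subtype = g ∧ (g'.map (residue A)).Separable ∧
    (g'.map (residue A)).natDegree = g'.natDegree ∧
    ∀ q : (ResidueField A)[X], Irreducible q → q ∣ g'.map (residue A) →
      ∃ s ∈ Per, s ∣ q.natDegree

/-- A monic divisor of a polynomial with good reduction without a root. -/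
theorem divisor_model {E : Type} [Field E] (A : ValuationSubring E) (g : A[X])
    (hsep : (g.map (residue A)).Separable)
    (hdeg : (g.map (residue A)).natDegree = g.natDegree)
    (hroot : ∀ a, (g.map (residue A)).eval a ≠ 0) (g₁ : E[X]) (hg₁ : g₁.Monic)
    (hd : g₁ ∣ g.map A.subtype) :
    ∃ g' : A[X], g'.map A.subtype = g₁ ∧ g'.Monic ∧ (g'.map (residue A)).Separable ∧
      ∀ a, (g'.map (residue A)).eval a ≠ 0 := by
  have hlc : residue A g.leadingCoeff ≠ 0 := by
    intro h0
    have hne : g.map (residue A) ≠ 0 := hsep.ne_zero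
    have h2 : (g.map (residue A)).coeff g.natDegree = 0 := by
      rw [coeff_map]
      exact h0
    rw [← hdeg] at h2
    exact hne (leadingCoeff_eq_zero.1 h2)
  have hu : IsUnit g.leadingCoeff := by
    by_contra h
    exact hlc ((residue_eq_zero_iff _).2 h)
  obtain ⟨u, hu⟩ := hu
  set f : A[X] := C ((u⁻¹ : Aˣ) : A) * g with hf
  have hfm : f.Monic := by
    rw [hf, Monic, leadingCoeff_C_mul_of_isUnit (u⁻¹).isUnit, ← hu, Units.inv_mul]
  have hgf : g = C (u : A) * f := by
    rw [hf, ← mul_assoc, ← C_mul, Units.mul_inv, C_1, one_mul]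
  have hd' : g₁ ∣ f.map (algebraMap A E) := by
    have h1 : g.map A.subtype = C ((u : A) : E) * f.map (algebraMap A E) := by
      conv_lhs => rw [hgf]
      rw [Polynomial.map_mul, map_C]
      rfl
    rw [h1] at hd
    have h2 : IsUnit (C ((u : A) : E)) := by
      rw [isUnit_C, isUnit_iff_ne_zero]
      exact fun h => u.ne_zero (Subtype.ext h)
    exact (h2.dvd_mul_left).1 hd
  obtain ⟨g', hg'⟩ := IsIntegrallyClosed.eq_map_mul_C_of_dvd E hfm hd'
  rw [hg₁.leadingCoeff, C_1, mul_one] at hg'
  have hg'm : g'.Monic := by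
    have h1 : (g'.map (algebraMap A E)).Monic := by rw [hg']; exact hg₁
    exact monic_of_injective (IsFractionRing.injective A E) h1
  have hdv : g' ∣ f := by
    rw [← hg'] at hd'
    exact (Polynomial.map_dvd_map (algebraMap A E) (IsFractionRing.injective A E) hg'm).1 hd'
  have hdv2 : g'.map (residue A) ∣ g.map (residue A) := by
    refine Polynomial.map_dvd _ (hdv.trans ?_)
    rw [hgf]
    exact dvd_mul_left _ _
  refine ⟨g', hg', hg'm, hsep.of_dvd hdv2, fun a ha => ?_⟩
  obtain ⟨t, ht⟩ := hdv2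
  apply hroot a
  rw [ht, eval_mul, ha, zero_mul]

theorem local_ext {K : Type} [Field K] [NumberField K] (v : HeightOneSpectrum (𝓞 K)) (S : Set ℕ)
    (ℓ : ℕ) (hℓ : ℓ.Prime) (hA : (ℓ : ResidueField (AP v)) ≠ 0) (h : K[X])
    (hh : GoodFor S h (AP v)) (Λ : Set K)
    (hΛ : ∀ c ∈ Λ, ∃ μ : ℕ, ¬ ℓ ∣ μ ∧ v.valuation K c = WithZero.exp (-(μ : ℤ))) :
    SecExt K S ℓ h Λ := by
  rintro E _ _ _ hd m F ⟨n, rfl⟩ hF hadm ⟨c, hc, b₀, hb₀⟩
  obtain ⟨g, hg, hsep, hdeg, hq⟩ := hh
  have hnf : NumberField E := NumberField.of_module_finite K E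
  obtain ⟨w, hw, he, hs⟩ := exists_prime_above (L := E) v ℓ S hd
  have hmr : (g.map (jj v w)).map (residue (AP w)) = (g.map (residue (AP v))).map (jr v w) := by
    rw [Polynomial.map_map, Polynomial.map_map]
    rfl
  have hjinj : Function.Injective (jj v w) := by
    intro a b hab
    apply Subtype.ext
    apply (algebraMap K E).injective
    exact congrArg Subtype.val hab
  have hmap : (g.map (jj v w)).map (AP w).subtype = h.map (algebraMap K E) := by
    rw [← hg, Polynomial.map_map, Polynomial.map_map]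
    rfl
  obtain ⟨F₀, H, g₁, hFeq, hF₀, hH, hg₁m, hg₁d, hg₁3, hadm₀⟩ := hadm.reduce hℓ hF
  obtain ⟨g', hg'1, hg'm, hg's, hg'r⟩ := divisor_model (AP w) (g.map (jj v w))
    (by rw [hmr]; exact hsep.map)
    (by rw [hmr, natDegree_map, hdeg, natDegree_map_eq_of_injective hjinj])
    (no_root_of v w g fun q hq1 hq2 hq3 => by
      obtain ⟨s, hs1, hs2⟩ := hq q hq1 hq2
      exact hs s hs1 (hs2.trans hq3)) g₁ hg₁m (by rw [hmap]; exact hg₁d)
  have hlc : F.leadingCoeff ≠ 0 := leadingCoeff_ne_zero.2 hF
  have hb0 : b₀ ≠ 0 := by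
    rintro rfl
    rw [zero_pow hℓ.ne_zero, mul_zero] at hb₀
    exact hlc hb₀
  have key := SUP.local_main (AP w) ℓ hℓ (by
      intro h0
      apply hA
      apply (jr v w).injective
      rw [map_natCast, map_zero]
      exact h0) g' hg's (hg'm.natDegree_map _)
    (by rw [← natDegree_map_eq_of_injective (AP w).subtype_injective, hg'1]; exact hg₁3) hg'r F₀
    hF₀.ne_zero (by rw [hg'1]; exact hadm₀) F.leadingCoeff (by
      intro b hb
      obtain ⟨μ, hμ, hcμ⟩ := hΛ c hc
      rw [hF₀.leadingCoeff, mul_one, hb₀, map_mul, map_pow] at hb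
      have hvb : (AP w).valuation b₀ ≠ 0 := (Valuation.ne_zero_iff _).2 hb0
      refine not_pow v w ℓ μ ?_ c hcμ (b / b₀) ?_
      · intro h1
        rcases hℓ.dvd_mul.1 h1 with h2 | h2
        · exact he h2
        · exact hμ h2
      · rw [map_div₀, div_pow, ← hb, mul_div_assoc, div_self (pow_ne_zero _ hvb), mul_one]) ℓ
    (dvd_refl ℓ)
  intro K' _ _ x y hx hxy
  have hHx : aeval x H ≠ 0 := by
    intro h0
    exact hx ⟨H, hH.ne_zero, h0⟩
  refine key K' x (y ^ n / aeval x H) hx ?_
  rw [div_pow, ← pow_mul, mul_comm n ℓ, hxy]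
  conv_lhs => rw [hFeq]
  rw [map_mul, map_mul, map_pow, map_mul, ← mul_assoc, mul_div_assoc,
    div_self (pow_ne_zero _ hHx), mul_one]

end SUE
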