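import Pool.Agent.MP_c1dca2_ag.SUE.V5
import Pool.Agent.MP_c1dca2_ag.SC4.F

/-!
# [SUE-V6] The primes at which the Frobenius element generates the group of a given element
-/

set_option autoImplicit false

open NumberField IsLocalRing Polynomial Filter Topology SC4 IsDedekindDomain

namespace SUE

/-- The periods of `σ` on the roots of `f`. -/
def periods {k : Type} [Field k] (f : k[X]) (σ : f.SplittingField ≃ₐ[k] f.SplittingField) :
    Set ℕ :=
  {d | ∃ r : f.SplittingField, aeval r f = 0 ∧ Function.minimalPeriod σ r = d}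

variable {k : Type} [Field k] [NumberField k]

theorem good_set (f : k[X]) (hsep : f.Separable)
    (σ : f.SplittingField ≃ₐ[k] f.SplittingField) (q₀ : ℕ)
    (B₀ : Set (Ideal (𝓞 k))) (hB₀ : B₀.Finite) :
    ¬ Summable (fun p : {p : ℕ | p.Prime ∧ q₀ ≤ p ∧
      ∃ v : HeightOneSpectrum (𝓞 k), Ideal.absNorm v.asIdeal = p ∧ v.asIdeal ∉ B₀ ∧
        GoodFor (periods f σ) f (AP v)} =>
      ((p : ℕ) : ℝ)⁻¹) := by
  classical
  have hfin : Module.Finite k f.SplittingField := inferInstance
  have hnf : NumberField f.SplittingField := NumberField.of_module_finite k f.SplittingField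
  have hgal : IsGalois k f.SplittingField := by
    have : Algebra.IsSeparable k f.SplittingField := inferInstance
    have : Normal k f.SplittingField := inferInstance
    exact ⟨⟩
  let F : IntermediateField k f.SplittingField :=
    IntermediateField.fixedField (Subgroup.zpowers σ)
  have hF : NumberField F := nf F
  have hgal' : IsGalois F f.SplittingField := inferInstance
  -- the generator
  have hfix : F.fixingSubgroup = Subgroup.zpowers σ :=
    IntermediateField.fixingSubgroup_fixedField _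
  have hσF : σ ∈ F.fixingSubgroup := by rw [hfix]; exact Subgroup.mem_zpowers σ
  let σ' : f.SplittingField ≃ₐ[F] f.SplittingField :=
    IntermediateField.fixingSubgroupEquiv F ⟨σ, hσF⟩
  have hσ' : ∀ x, σ' x = σ x := fun x => rfl
  have hgen : ∀ τ : f.SplittingField ≃ₐ[F] f.SplittingField, τ ∈ Subgroup.zpowers σ' := by
    intro τ
    have h2 : ((IntermediateField.fixingSubgroupEquiv F).symm τ).1 ∈ Subgroup.zpowers σ := by
      rw [← hfix]; exact ((IntermediateField.fixingSubgroupEquiv F).symm τ).2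
    obtain ⟨n, hn⟩ := h2
    refine ⟨n, ?_⟩
    change σ' ^ n = τ
    have h3 : (⟨σ, hσF⟩ : F.fixingSubgroup) ^ n = (IntermediateField.fixingSubgroupEquiv F).symm τ :=
      Subtype.ext (by simpa using hn)
    have h4 : σ' ^ n = IntermediateField.fixingSubgroupEquiv F ((⟨σ, hσF⟩ : F.fixingSubgroup) ^ n) :=
      (map_zpow _ _ _).symm
    rw [h4, h3, MulEquiv.apply_symm_apply]
  have hspl : (f.map (algebraMap k f.SplittingField)).Splits := SplittingField.splits f
  obtain ⟨B₁, hB₁fin, hB₁⟩ := good_primes f hsep hspl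
  -- the denominators of the roots
  have hN : Algebra.IsAlgebraic ℤ f.SplittingField := X5_alg f.SplittingField
  obtain ⟨D, hD0, hD⟩ := Algebra.IsAlgebraic.exists_integral_multiples ℤ (A := f.SplittingField)
    (f.map (algebraMap k f.SplittingField)).roots.toFinset
  have hDr : ∀ r : f.SplittingField, aeval r f = 0 →
      IsIntegral ℤ ((D : f.SplittingField) * r) := by
    intro r hr
    have h1 := hD r (by
      rw [Multiset.mem_toFinset, Polynomial.mem_roots (by
        rw [Polynomial.map_ne_zero_iff (algebraMap k f.SplittingField).injective]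
        exact hsep.ne_zero), Polynomial.IsRoot.def, Polynomial.eval_map_algebraMap]
      exact hr)
    rwa [zsmul_eq_mul] at h1
  have hD0' : (D : 𝓞 k) ≠ 0 := by exact_mod_cast hD0
  obtain ⟨B, hBdef⟩ : ∃ B : Set (Ideal (𝓞 k)), B = B₁ ∪ B₀ ∪ {P | P.IsPrime ∧ (D : 𝓞 k) ∈ P} :=
    ⟨_, rfl⟩
  have hBfin : B.Finite := by rw [hBdef]; exact (hB₁fin.union hB₀).union (X5_fin _ hD0')
  -- the excluded primes of `F`
  let B' : Set (Ideal (𝓞 F)) :=
    {P | (P ∈ P1 F ∧ P.comap (algebraMap (𝓞 k) (𝓞 F)) ∈ B) ∨ Ideal.absNorm P ≤ q₀}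
  have hB' : B'.Finite := by
    have h1 : {P : Ideal (𝓞 F) | P ∈ P1 F ∧ P.comap (algebraMap (𝓞 k) (𝓞 F)) ∈ B}.Finite := by
      have h2 : {P : Ideal (𝓞 F) | P ∈ P1 F ∧ P.comap (algebraMap (𝓞 k) (𝓞 F)) ∈ B} ⊆
          ⋃ b ∈ B, {P : Ideal (𝓞 F) | Ideal.absNorm P = Ideal.absNorm b} := by
        rintro P ⟨hP1, hP2⟩
        simp only [Set.mem_iUnion]
        exact ⟨_, hP2, (norm_comap P hP1).symm⟩
      refine Set.Finite.subset (Set.Finite.biUnion hBfin fun b _ => ?_) h2
      exact Ideal.finite_setOfPred_absNorm_eq _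
    have h3 : {P : Ideal (𝓞 F) | Ideal.absNorm P ≤ q₀}.Finite := Ideal.finite_setOfPred_absNorm_le _
    exact (h1.union h3).subset (by intro P hP; exact hP)
  have key := not_summable σ' hgen B' hB'
  intro hs
  apply key
  -- inclusion of the sets
  have hsub : {p : ℕ | ∃ P ∈ T σ', P ∉ B' ∧ Ideal.absNorm P = p} ⊆
      {p : ℕ | p.Prime ∧ q₀ ≤ p ∧ ∃ v : HeightOneSpectrum (𝓞 k), Ideal.absNorm v.asIdeal = p ∧
        v.asIdeal ∉ B₀ ∧ GoodFor (periods f σ) f (AP v)} := by
    rintro p ⟨P, ⟨hP1, R, j, hR, hRP, hj, hfrob⟩, hPB, rfl⟩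
    have hp : (Ideal.absNorm P).Prime := hP1
    have hPk1 : P.comap (algebraMap (𝓞 k) (𝓞 F)) ∈ P1 k := by
      change (Ideal.absNorm _).Prime
      rw [norm_comap P hP1]; exact hp
    have hnB : P.comap (algebraMap (𝓞 k) (𝓞 F)) ∉ B := fun h => hPB (Or.inl ⟨hP1, h⟩)
    let v : HeightOneSpectrum (𝓞 k) :=
      ⟨P.comap (algebraMap (𝓞 k) (𝓞 F)), P1.isPrime hPk1, P1.ne_bot hPk1⟩
    have hnB₀ : v.asIdeal ∉ B₀ := fun h => hnB (by rw [hBdef]; exact Or.inl (Or.inr h))
    refine ⟨hp, (not_le.1 fun h => hPB (Or.inr h)).le, v, norm_comap P hP1, hnB₀, ?_⟩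
    obtain ⟨g, hg1, hg2, hg3, -⟩ :=
      hB₁ v.asIdeal v.isPrime v.ne_bot
        (fun h => hnB (by rw [hBdef]; exact Or.inl (Or.inl h))) (AP v) (AP_int v) (AP_lt v)
    refine ⟨g, hg1, hg2, hg3, ?_⟩
    intro q hq hqg
    have hR' : R.comap (algebraMap (𝓞 k) (𝓞 f.SplittingField)) = v.asIdeal := by
      show _ = P.comap (algebraMap (𝓞 k) (𝓞 F))
      rw [← hRP, Ideal.comap_comap]
      rfl
    have hRbot : R ≠ ⊥ := by
      rintro rfl
      apply v.ne_bot
      rw [← hR', ← Ideal.zero_eq_bot]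
      exact Ideal.comap_bot_of_injective _ (FaithfulSMul.algebraMap_injective _ _)
    let w : HeightOneSpectrum (𝓞 f.SplittingField) := ⟨R, hR, hRbot⟩
    have hw : w.asIdeal.LiesOver v.asIdeal := ⟨hR'.symm⟩
    have hDw : (D : 𝓞 f.SplittingField) ∉ w.asIdeal := by
      intro h
      apply hnB
      rw [hBdef]
      refine Or.inr ⟨P1.isPrime hPk1, ?_⟩
      show (D : 𝓞 k) ∈ v.asIdeal
      rw [← hR', Ideal.mem_comap, map_intCast]
      exact h
    have h5 : ∀ (n : ℕ) (z : f.SplittingField), (σ' ^ n) z = (σ ^ n) z := by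
      intro n
      induction n with
      | zero => intro z; rfl
      | succ n ih =>
        intro z; rw [pow_succ, pow_succ, AlgEquiv.mul_apply, AlgEquiv.mul_apply, ih, hσ']
    have hcard : Nat.card (ResidueField (AP v)) = Ideal.absNorm P := by
      rw [AP_card]
      exact norm_comap P hP1
    have hfr : FrobAt (σ ^ j) w.asIdeal (Nat.card (ResidueField (AP v))) := by
      intro x y hxy
      rw [hcard]
      refine hfrob x y ?_
      rw [hxy]
      exact (h5 j x).symm
    obtain ⟨r, hr1, hr2⟩ := factor_period v w f hsep hspl g hg1 hg2 hg3 D hDr hDw (σ ^ j) hfr q hq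
      hqg
    refine ⟨Function.minimalPeriod σ r, ⟨r, hr1, rfl⟩, ?_⟩
    -- `σ ∈ ⟨σ^j⟩`
    have hfin'' : Finite (f.SplittingField ≃ₐ[F] f.SplittingField) := inferInstance
    obtain ⟨i, hi⟩ := exists_pow_eq_self_of_coprime hj
    have h10 : (σ' ^ q.natDegree) r = r := by
      have h11 : ((σ' ^ j) ^ q.natDegree) r = r := by
        rw [← pow_mul, h5, pow_mul]
        exact hr2
      have h12 : (((σ' ^ j) ^ q.natDegree) ^ i) r = r := by
        have : ((σ' ^ j) ^ q.natDegree) ∈
          MulAction.stabilizer (f.SplittingField ≃ₐ[F] f.SplittingField) r := h11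
        exact (Subgroup.pow_mem _ this i : _)
      have h13 : ((σ' ^ j) ^ q.natDegree) ^ i = σ' ^ q.natDegree := by
        have h14 : (σ' ^ j) ^ i = σ' := by simpa using hi
        rw [← pow_mul, mul_comm, pow_mul, h14]
      rw [h13] at h12
      exact h12
    rw [h5] at h10
    apply Function.IsPeriodicPt.minimalPeriod_dvd
    show (⇑σ)^[q.natDegree] r = r
    rw [← AlgEquiv.coe_pow]
    exact h10
  exact (Summable.comp_injective hs (i := Set.inclusion hsub) (Set.inclusion_injective hsub))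

end SUE
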