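import Mathlib

/-!
# [SUE-V1] The valuation ring of a prime of a number field, and primes above it

For a prime `v` of `K` and an extension `L / K` whose degree is not in the numerical semigroup
generated by `ℓ` and `S` there is a prime `w` above `v` whose ramification index is not divisible by
`ℓ` and whose inertia degree is not divisible by an element of `S`.
-/

set_option autoImplicit false

open NumberField IsLocalRing Polynomial IsDedekindDomain

namespace SUE

variable {K : Type} [Field K] [NumberField K]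

/-- The valuation ring of a prime. -/
noncomputable def AP (v : HeightOneSpectrum (𝓞 K)) : ValuationSubring K :=
  (v.valuation K).valuationSubring

theorem AP_equiv (v : HeightOneSpectrum (𝓞 K)) : (v.valuation K).IsEquiv (AP v).valuation :=
  (v.valuation K).isEquiv_valuation_valuationSubring

theorem mem_AP (v : HeightOneSpectrum (𝓞 K)) (x : K) : x ∈ AP v ↔ v.valuation K x ≤ 1 :=
  Valuation.mem_valuationSubring_iff _ _

theorem AP_int (v : HeightOneSpectrum (𝓞 K)) (x : 𝓞 K) : (x : K) ∈ AP v := by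
  rw [mem_AP]
  exact v.valuation_le_one x

theorem AP_lt' (v : HeightOneSpectrum (𝓞 K)) (x : K) :
    (AP v).valuation x < 1 ↔ v.valuation K x < 1 := ((AP_equiv v).lt_one_iff_lt_one).symm

theorem AP_lt (v : HeightOneSpectrum (𝓞 K)) (x : 𝓞 K) :
    (AP v).valuation (x : K) < 1 ↔ x ∈ v.asIdeal := by
  rw [AP_lt']
  exact v.valuation_lt_one_iff_mem x

instance AP_dvr (v : HeightOneSpectrum (𝓞 K)) : IsDiscreteValuationRing (AP v) :=
  inferInstanceAs (IsDiscreteValuationRing (v.valuation K).integer)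

/-- The map to the residue field. -/
noncomputable def toRes (v : HeightOneSpectrum (𝓞 K)) : 𝓞 K →+* ResidueField (AP v) :=
  (residue (AP v)).comp
    { toFun := fun x => ⟨(x : K), AP_int v x⟩
      map_one' := by apply Subtype.ext; simp
      map_mul' := fun x y => by apply Subtype.ext; simp
      map_zero' := by apply Subtype.ext; simp
      map_add' := fun x y => by apply Subtype.ext; simp }

theorem toRes_surj (v : HeightOneSpectrum (𝓞 K)) : Function.Surjective (toRes v) := by
  intro y
  obtain ⟨a, rfl⟩ := IsLocalRing.residue_surjective y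
  have ha : v.valuation K (a : K) ≤ 1 := (mem_AP v _).mp a.2
  obtain ⟨b, hb⟩ := v.exists_valuation_sub_lt_of_integer ha 1
  refine ⟨b, ?_⟩
  change IsLocalRing.residue (AP v) ⟨(b : K), AP_int v b⟩ = IsLocalRing.residue (AP v) a
  rw [← sub_eq_zero, ← map_sub, IsLocalRing.residue_eq_zero_iff, (AP v).valuation_lt_one_iff,
    AP_lt']
  rw [Units.val_one] at hb
  exact hb

theorem toRes_ker (v : HeightOneSpectrum (𝓞 K)) : RingHom.ker (toRes v) = v.asIdeal := by
  ext x
  rw [RingHom.mem_ker]
  change IsLocalRing.residue (AP v) ⟨(x : K), AP_int v x⟩ = 0 ↔ _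
  rw [IsLocalRing.residue_eq_zero_iff, (AP v).valuation_lt_one_iff]
  exact AP_lt v x

theorem AP_card (v : HeightOneSpectrum (𝓞 K)) :
    Nat.card (ResidueField (AP v)) = Ideal.absNorm v.asIdeal := by
  rw [Ideal.absNorm_apply, Submodule.cardQuot_apply, ← toRes_ker]
  exact (Nat.card_congr (RingHom.quotientKerEquivOfSurjective (toRes_surj v)).toEquiv).symm

instance AP_finite (v : HeightOneSpectrum (𝓞 K)) : Finite (ResidueField (AP v)) := by
  apply Nat.finite_of_card_ne_zero
  rw [AP_card, Ne, Ideal.absNorm_eq_zero_iff]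
  exact v.ne_bot

/-- Elements of valuation `1` (in the additive notation). -/
theorem val_one (v : HeightOneSpectrum (𝓞 K)) (x : 𝓞 K) (hx : x ∈ v.asIdeal)
    (hx2 : x ∉ v.asIdeal ^ 2) : v.valuation K (x : K) = WithZero.exp (-1 : ℤ) := by
  have h2 : v.valuation K (x : K) = v.intValuation x := v.valuation_of_algebraMap x
  have h3 : v.intValuation x ≤ WithZero.exp (-((1 : ℕ) : ℤ)) := by
    rw [v.intValuation_le_pow_iff_mem]
    simpa using hx
  have h4 : ¬ v.intValuation x ≤ WithZero.exp (-((2 : ℕ) : ℤ)) := by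
    rw [v.intValuation_le_pow_iff_mem]
    exact hx2
  rw [h2]
  have hb0 : v.intValuation x ≠ 0 := by
    intro h0
    rw [h0] at h4
    simp at h4
  obtain ⟨n, hn⟩ : ∃ n : ℤ, v.intValuation x = WithZero.exp n := ⟨_, (WithZero.exp_log hb0).symm⟩
  rw [hn] at h3 h4 ⊢
  rw [WithZero.exp_le_exp] at h3 h4
  congr 1
  push_cast at h3 h4
  omega

variable {L : Type} [Field L] [NumberField L] [Algebra K L]

theorem exists_prime_above (v : HeightOneSpectrum (𝓞 K)) (ℓ : ℕ) (S : Set ℕ)
    (hd : Module.finrank K L ∉ AddSubmonoid.closure (insert ℓ S)) :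
    ∃ w : HeightOneSpectrum (𝓞 L), w.asIdeal.LiesOver v.asIdeal ∧
      ¬ ℓ ∣ v.asIdeal.ramificationIdx' w.asIdeal ∧
        ∀ s ∈ S, ¬ s ∣ v.asIdeal.inertiaDeg' w.asIdeal := by
  classical
  by_contra hcon
  push Not at hcon
  apply hd
  have hmax : v.asIdeal.IsMaximal := v.isPrime.isMaximal v.ne_bot
  rw [← Ideal.sum_ramification_inertia (𝓞 L) K L v.ne_bot]
  refine AddSubmonoid.sum_mem _ fun P hP => ?_
  obtain ⟨hP1, hP2⟩ := (IsDedekindDomain.mem_primesOverFinset_iff v.ne_bot _).mp hP
  have hP3 : P ≠ ⊥ := Ideal.ne_bot_of_liesOver_of_ne_bot v.ne_bot P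
  by_cases h : ℓ ∣ v.asIdeal.ramificationIdx' P
  · obtain ⟨t, ht⟩ := h
    have h1 : v.asIdeal.ramificationIdx' P * v.asIdeal.inertiaDeg' P =
        (t * v.asIdeal.inertiaDeg' P) • ℓ := by
      rw [ht, smul_eq_mul]
      ring
    rw [h1]
    exact AddSubmonoid.nsmul_mem _ (AddSubmonoid.subset_closure (Set.mem_insert _ _)) _
  · obtain ⟨s, hs, t, ht⟩ := hcon ⟨P, hP1, hP3⟩ hP2 h
    have h1 : v.asIdeal.ramificationIdx' P * v.asIdeal.inertiaDeg' P =
        (v.asIdeal.ramificationIdx' P * t) • s := by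
      rw [ht, smul_eq_mul]
      ring
    rw [h1]
    exact AddSubmonoid.nsmul_mem _ (AddSubmonoid.subset_closure (Set.mem_insert_of_mem _ hs)) _

end SUE
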