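import Pool.Agent.MP_c1dca2_ag.SUE.V9

/-!
# [SUE-V10] The good classes at a prime of degree one
-/

set_option autoImplicit false
set_option linter.unusedSectionVars false

open Polynomial NumberField IsLocalRing IsDedekindDomain SUU

namespace SUE

theorem natCast_ne_zero {K : Type} [Field K] [NumberField K] (v : HeightOneSpectrum (𝓞 K)) (p ℓ : ℕ)
    (hp : p.Prime) (hv : Ideal.absNorm v.asIdeal = p) (hℓ : ℓ.Prime) (hℓp : ℓ ≠ p) :
    (ℓ : ResidueField (AP v)) ≠ 0 := by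
  intro h
  have h0 : ((Nat.card (ResidueField (AP v)) : ℕ) : ResidueField (AP v)) = 0 := by
    have := Fintype.ofFinite (ResidueField (AP v))
    rw [Nat.card_eq_fintype_card]
    exact Nat.cast_card_eq_zero _
  rw [AP_card, hv] at h0
  have h6 : p.Coprime ℓ := (Nat.coprime_primes hp hℓ).2 (Ne.symm hℓp)
  have h7 := Nat.isCoprime_iff_coprime.2 h6
  obtain ⟨u, t, huv⟩ := h7
  have h8 : ((u * (p : ℕ) + t * (ℓ : ℕ) : ℤ) : ResidueField (AP v)) = 1 := by
    rw [huv]; simp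
  push_cast at h8
  rw [h0, h] at h8
  simp at h8

variable {k K L : Type} [Field k] [NumberField k] [Field K] [NumberField K] [Field L]
  [NumberField L] [Algebra k K] [Algebra K L] [Algebra k L] [IsScalarTower k K L]

/-- The admissible leading coefficients (up to `ℓ`-th powers): `c ∏ d_j ^ (e_j)`. -/
def Lam {K : Type} [Field K] {s : Type} [Fintype s] (c : K) (d : s → K) : Set K :=
  Set.range (fun e : s → ℤ => c * ∏ j, d j ^ e j)

theorem exists_RS {r : Type} [Fintype r] {n : r → ℕ} {s : Type} [Fintype s] (G : K[X][X])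
    (c : K[X]) (d : s → K[X]) (t₀ : L) (μ : ℕ)
    (c₁ : L[X]) (hc : c.map (algebraMap K L) = (X - C t₀) ^ μ * c₁) (hc₁ : c₁.eval t₀ ≠ 0)
    (hd : ∀ j, ((d j).map (algebraMap K L)).eval t₀ ≠ 0)
    (hGd : (ev G t₀).natDegree = G.natDegree) (δ : ℝ) (q₀ : ℕ)
    (hδ : ∀ (F : Type) [Field F] [Finite F], q₀ ≤ Nat.card F →
      ∀ h : F[X], h ≠ 0 → h.natDegree ≤ G.natDegree →
      δ * ((Nat.card F : ℝ) ^ ∑ i, n i) ≤
        Nat.card {c : (i : r) → Fin (n i) → F // GoodT n c ∧ ∀ i, ¬ mon (n i) (c i) ∣ h})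
    (p : ℕ) (hp : p.Prime) (hqp : q₀ ≤ p) (w : HeightOneSpectrum (𝓞 L))
    (hw : Ideal.absNorm w.asIdeal = p) (Per : Set ℕ) (hg : GoodFor Per (ev G t₀) (AP w))
    (ht₀ : t₀ ∈ AP w)
    (hmod : ∃ G' : (AP w)[X][X],
      G'.map (mapRingHom (AP w).subtype) = G.map (mapRingHom (algebraMap K L)))
    (hmod₁ : (∃ c' : (AP w)[X], c'.map (AP w).subtype = c₁) ∧ (c₁.eval t₀)⁻¹ ∈ AP w)
    (hmod₂ : ∀ j, (∃ c' : (AP w)[X], c'.map (AP w).subtype = (d j).map (algebraMap K L)) ∧
      (((d j).map (algebraMap K L)).eval t₀)⁻¹ ∈ AP w)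
    (hun : ∀ a : 𝓞 k, a ∈ w.asIdeal.comap (algebraMap (𝓞 k) (𝓞 L)) →
        a ∉ (w.asIdeal.comap (algebraMap (𝓞 k) (𝓞 L))) ^ 2 →
        algebraMap (𝓞 k) (𝓞 L) a ∉ w.asIdeal ^ 2) :
    ∃ P : Ideal (𝓞 k), Ideal.absNorm P = p ∧
      ∃ (R : Set (𝓞 k ⧸ P ^ 2)) (S : Set ((i : r) → Fin (n i) → 𝓞 k ⧸ P)),
        p - 1 ≤ Nat.card R ∧ δ * ((p : ℝ) ^ ∑ i, n i) ≤ Nat.card S ∧
      ∀ (a : 𝓞 k) (x : (i : r) → Fin (n i) → 𝓞 k), Ideal.Quotient.mk (P ^ 2) a ∈ R →
        (fun i j => Ideal.Quotient.mk P (x i j)) ∈ S → ∀ ℓ : ℕ, ℓ.Prime → ℓ ≠ p → ¬ ℓ ∣ μ →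
          SecExt K (Set.range n ∪ Per) ℓ
            (ev G (algebraMap k K (a : k)) *
              ∏ i, mon (n i) (fun j => algebraMap k K (x i j : k)))
            (Lam (c.eval (algebraMap k K (a : k)))
              (fun j => (d j).eval (algebraMap k K (a : k)))) := by
  classical
  have hwp : (Ideal.absNorm w.asIdeal).Prime := by rw [hw]; exact hp
  set GG : L[X][X] := G.map (mapRingHom (algebraMap K L)) with hGG
  have hinj : Function.Injective (mapRingHom (algebraMap K L)) :=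
    Polynomial.map_injective _ (algebraMap K L).injective
  have hGGn : GG.natDegree = G.natDegree := natDegree_map_eq_of_injective hinj _
  have hGt : ∀ t : L, ev G t = GG.map (evalRingHom t) := fun t => ev_eq G t
  obtain ⟨S, hS1, hS2⟩ := exists_S (n := n) GG t₀
    (by rw [← hGt, hGd, hGGn]) δ q₀ (by rw [hGGn]; exact hδ) p hp hqp w.asIdeal hw w rfl Per
    (by rw [← hGt]; exact hg) ht₀ hmod
  -- the approximation of `t₀`
  obtain ⟨s, hs⟩ := w.exists_valuation_sub_lt_of_integer ((mem_AP w _).1 ht₀)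
    (Units.mk0 (WithZero.exp (-1 : ℤ)) WithZero.exp_ne_zero)
  rw [Units.val_mk0] at hs
  set P : Ideal (𝓞 k) := w.asIdeal.comap (algebraMap (𝓞 k) (𝓞 L)) with hP
  obtain ⟨R, hR1, hR2⟩ := exists_R p hp w.asIdeal hw hun s
  have hPn : Ideal.absNorm P = p := by
    rw [hP, SC4.norm_comap w.asIdeal hwp, hw]
  -- the prime of `K`
  have hvn : Ideal.absNorm (w.asIdeal.comap (algebraMap (𝓞 K) (𝓞 L))) = p := by
    rw [SC4.norm_comap w.asIdeal hwp, hw]
  let v : HeightOneSpectrum (𝓞 K) := ⟨w.asIdeal.comap (algebraMap (𝓞 K) (𝓞 L)),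
    Ideal.isPrime_of_irreducible_absNorm (by rw [hvn]; exact hp), by
      intro h0
      rw [h0, Ideal.absNorm_bot] at hvn
      exact hp.ne_zero hvn.symm⟩
  have hvn' : Ideal.absNorm v.asIdeal = p := hvn
  have hvw : w.asIdeal.LiesOver v.asIdeal := ⟨rfl⟩
  let ψ : (𝓞 k ⧸ P) →+* (𝓞 L ⧸ w.asIdeal) :=
    Ideal.quotientMap w.asIdeal (algebraMap (𝓞 k) (𝓞 L)) le_rfl
  have hψi : Function.Injective ψ := Ideal.quotientMap_injective
  have hfinL : Finite (𝓞 L ⧸ w.asIdeal) := by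
    apply Nat.finite_of_card_ne_zero
    rw [card_P p w.asIdeal hw]
    exact hp.ne_zero
  have hψ : Function.Bijective ψ := hψi.bijective_of_nat_card_le (by
    rw [card_P p _ hPn, card_P p _ hw])
  let e : ((i : r) → Fin (n i) → 𝓞 k ⧸ P) ≃ ((i : r) → Fin (n i) → 𝓞 L ⧸ w.asIdeal) :=
    Equiv.piCongrRight fun i => Equiv.piCongrRight fun j => Equiv.ofBijective ψ hψ
  refine ⟨P, hPn, R, {x | e x ∈ S}, hR1, ?_, ?_⟩
  · have h1 : Nat.card {x | e x ∈ S} = Nat.card S :=
      Nat.card_congr (e.subtypeEquiv fun x => Iff.rfl)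
    rw [h1]
    exact hS1
  · intro a x ha hx ℓ hℓ hℓp hℓμ
    have e1 : ∀ y : 𝓞 k, ((algebraMap (𝓞 k) (𝓞 L) y : 𝓞 L) : L) =
        algebraMap K L (algebraMap k K (y : k)) := by
      intro y
      rw [← IsScalarTower.algebraMap_apply k K L]
      rfl
    obtain ⟨ha1, ha2⟩ := hR2 a ha
    have hv1 := val_one w _ ha1 ha2
    have hval : w.valuation L (algebraMap K L (algebraMap k K (a : k)) - t₀) =
        WithZero.exp (-1 : ℤ) := by
      have h1 : algebraMap K L (algebraMap k K (a : k)) - t₀ =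
          ((algebraMap (𝓞 k) (𝓞 L) a - s : 𝓞 L) : L) + ((s : L) - t₀) := by
        have h0 : ((algebraMap (𝓞 k) (𝓞 L) a - s : 𝓞 L) : L) =
            ((algebraMap (𝓞 k) (𝓞 L) a : 𝓞 L) : L) - (s : L) := rfl
        rw [h0, e1]
        ring
      rw [h1, Valuation.map_add_eq_of_lt_left _ (by rw [hv1]; exact hs), hv1]
    have hlt : w.valuation L (algebraMap K L (algebraMap k K (a : k)) - t₀) < 1 := by
      rw [hval, ← WithZero.exp_zero, WithZero.exp_lt_exp]
      norm_num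
    have h1 := hS2 (algebraMap K L (algebraMap k K (a : k)))
      (fun i j => algebraMap (𝓞 k) (𝓞 L) (x i j)) hlt hx
    simp only [e1] at h1
    rw [← hGt, ← ev_map] at h1
    have e3 : ∀ i, mon (n i) (fun j => algebraMap K L (algebraMap k K (x i j : k))) =
        (mon (n i) (fun j => algebraMap k K (x i j : k))).map (algebraMap K L) :=
      fun i => (mon_map _ _ _).symm
    simp only [e3] at h1
    rw [← Polynomial.map_prod, ← Polynomial.map_mul] at h1
    have h5 := GoodFor.descend v w (jr_bij v w hwp) _ _ h1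
    have h4 := val_eval_one w c₁ t₀ ht₀ hc₁ hmod₁.1 hmod₁.2 _ hlt
    have h7 : ∀ j, w.valuation L (algebraMap K L ((d j).eval (algebraMap k K (a : k)))) = 1 := by
      intro j
      have e5 := Polynomial.eval_map_apply (algebraMap K L) (p := d j) (algebraMap k K (a : k))
      rw [← e5]
      exact val_eval_one w _ t₀ ht₀ (hd j) (hmod₂ j).1 (hmod₂ j).2 _ hlt
    have h6 : w.valuation L (algebraMap K L (c.eval (algebraMap k K (a : k)))) =
        WithZero.exp (-(μ : ℤ)) := by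
      have e4 : algebraMap K L (c.eval (algebraMap k K (a : k))) =
          (algebraMap K L (algebraMap k K (a : k)) - t₀) ^ μ *
            c₁.eval (algebraMap K L (algebraMap k K (a : k))) := by
        have e5 := Polynomial.eval_map_apply (algebraMap K L) (p := c) (algebraMap k K (a : k))
        rw [← e5, hc, eval_mul, eval_pow, eval_sub, eval_X, eval_C]
      rw [e4, map_mul, map_pow, hval, h4, mul_one, ← WithZero.exp_nsmul]
      congr 1
      simp
    refine local_ext v _ ℓ hℓ (natCast_ne_zero v p ℓ hp hvn' hℓ hℓp) _ h5 _ ?_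
    rintro _ ⟨e, rfl⟩
    have h8 : w.valuation L (algebraMap K L (c.eval (algebraMap k K (a : k)) *
        ∏ j, (d j).eval (algebraMap k K (a : k)) ^ e j)) = WithZero.exp (-(μ : ℤ)) := by
      rw [map_mul, map_mul, h6, map_prod, map_prod]
      have h9 : ∀ j, w.valuation L (algebraMap K L ((d j).eval (algebraMap k K (a : k)) ^ e j)) =
          1 := by
        intro j
        rw [map_zpow₀, map_zpow₀, h7 j, one_zpow]
      rw [Finset.prod_congr rfl fun j _ => h9 j, Finset.prod_const_one, mul_one]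
    obtain ⟨ν, hν1, hν2⟩ := val_descend v w _ μ h8
    exact ⟨ν, hν2 ℓ hℓμ, hν1⟩

end SUE
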