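import Pool.Agent.MP_c1dca2_ag.SUE.V10
import Pool.Agent.MP_c1dca2_ag.SUU.U1
import Pool.Agent.MP_c1dca2_ag.SUU.U9
import Pool.Agent.MP_c1dca2_ag.SUP.E1

/-!
# [SUE-V11] The section conjecture over extensions for 100% of all superelliptic curves
-/

set_option autoImplicit false
set_option linter.unusedSectionVars false

open Polynomial NumberField IsLocalRing IsDedekindDomain SUU

namespace SUE

/-- Finite unions. -/
theorem card_union_le {X : Type} (Bx A₁ A₂ A : X → Prop) (hB : {z | Bx z}.Finite)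
    (h : ∀ z, A z → A₁ z ∨ A₂ z) :
    (Nat.card {z : X // Bx z ∧ A z} : ℝ) ≤
      Nat.card {z : X // Bx z ∧ A₁ z} + Nat.card {z : X // Bx z ∧ A₂ z} := by
  have h2 : {z | Bx z ∧ A z} ⊆ {z | Bx z ∧ A₁ z} ∪ {z | Bx z ∧ A₂ z} := by
    rintro z ⟨hz1, hz2⟩
    rcases h z hz2 with h | h
    · exact Or.inl ⟨hz1, h⟩
    · exact Or.inr ⟨hz1, h⟩
  have hf : ∀ C : X → Prop, {z | Bx z ∧ C z}.Finite := fun C => hB.subset fun z hz => hz.1
  have h3 : ({z | Bx z ∧ A z}).ncard ≤ ({z | Bx z ∧ A₁ z}).ncard + ({z | Bx z ∧ A₂ z}).ncard :=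
    (Set.ncard_le_ncard h2 ((hf A₁).union (hf A₂))).trans (Set.ncard_union_le _ _)
  exact_mod_cast h3

theorem box_finite {X : Type} [Fintype X] (u : X → ℤ) (N : X → ℕ) :
    {z : X → ℤ | ∀ x, u x ≤ z x ∧ z x < u x + N x}.Finite := by
  classical
  refine Set.Finite.subset (Fintype.piFinset
    (fun x : X => Finset.Ico (u x) (u x + N x))).finite_toSet ?_
  intro c hc
  simp only [Finset.mem_coe, Fintype.mem_piFinset, Finset.mem_Ico]
  exact hc

/-- The assertion for the curves `y^m = F(x)` over the extensions of `K` with respect to a set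
`Per` of periods. -/
def AllExt (K : Type) [Field K] {r : Type} (n : r → ℕ) (Per : Set ℕ) (μ : ℕ) (g : K[X])
    (Λ : Set K) : Prop :=
  ∀ ℓ : ℕ, ℓ.Prime → ¬ ℓ ∣ μ → SecExt K (Set.range n ∪ Per) ℓ g Λ

variable {k : Type} [Field k] [NumberField k] (K L : Type) [Field K] [NumberField K] [Field L]
  [NumberField L] [Algebra k K] [Algebra K L] [Algebra k L] [IsScalarTower k K L]

theorem main_one {ι : Type} [Fintype ι] (b : Module.Basis ι ℤ (𝓞 k)) {r : Type} [Fintype r]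
    (n : r → ℕ) (hn : ∀ i, 2 ≤ n i) {s : Type} [Fintype s] (G : K[X][X]) (c : K[X]) (d : s → K[X])
    (t₀ : L) (μ : ℕ) (c₁ : L[X])
    (hc : c.map (algebraMap K L) = (X - C t₀) ^ μ * c₁) (hc₁ : c₁.eval t₀ ≠ 0)
    (hd : ∀ j, ((d j).map (algebraMap K L)).eval t₀ ≠ 0)
    (hGd : (ev G t₀).natDegree = G.natDegree)
    (g₀ : L[X]) (hg₀ : ev G t₀ = g₀) (hsep : g₀.Separable)
    (σ : g₀.SplittingField ≃ₐ[L] g₀.SplittingField) (ε : ℝ) (hε : 0 < ε) :
    ∃ M : ℕ, ∀ (u : Idx n ι → ℤ) (N : Idx n ι → ℕ), (∀ x, M ≤ N x) →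
      (Nat.card {z : Idx n ι → ℤ // (∀ x, u x ≤ z x ∧ z x < u x + N x) ∧
        ¬ AllExt K n (periods g₀ σ) μ
          (ev G (algebraMap k K (aOf b z : k)) *
            ∏ i, mon (n i) (fun j => algebraMap k K (cOf b z i j : k)))
          (Lam (c.eval (algebraMap k K (aOf b z : k)))
            (fun j => (d j).eval (algebraMap k K (aOf b z : k))))} : ℝ) ≤
        ε * ∏ x, (N x : ℝ) := by
  classical
  obtain ⟨B₀, hB₀, hmod⟩ := exists_models (G.map (mapRingHom (algebraMap K L))) c₁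
    (c₁.eval t₀)⁻¹
  have hexB : ∀ j : s, ∃ B : Set (Ideal (𝓞 L)), B.Finite ∧
    ∀ P : Ideal (𝓞 L), P.IsPrime → P ∉ B → ∀ A : ValuationSubring L, (∀ x : 𝓞 L, (x : L) ∈ A) →
      (∀ x : 𝓞 L, A.valuation (x : L) < 1 ↔ x ∈ P) →
      (∃ c' : A[X], c'.map A.subtype = (d j).map (algebraMap K L)) ∧
        (((d j).map (algebraMap K L)).eval t₀)⁻¹ ∈ A := by
    intro j
    obtain ⟨B, hB, h⟩ := exists_models (0 : L[X][X]) ((d j).map (algebraMap K L))
      (((d j).map (algebraMap K L)).eval t₀)⁻¹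
    exact ⟨B, hB, fun P hP hPB A hA hA' => (h P hP hPB A hA hA').2⟩
  choose Bd hBd hmodd using hexB
  obtain ⟨B₁, hB₁, hmod₁⟩ := almost_all ({t₀} : Finset L)
  obtain ⟨B₂, hB₂, hun⟩ := unram k L
  obtain ⟨B, hB⟩ : ∃ B, B = B₀ ∪ B₁ ∪ B₂ ∪ ⋃ j, Bd j := ⟨_, rfl⟩
  have hBfin : B.Finite := by
    rw [hB]
    exact ((hB₀.union hB₁).union hB₂).union (Set.finite_iUnion hBd)
  obtain ⟨δ, hδ, q₀, hq₀⟩ := card_tuples r n hn G.natDegree
  set Q : Set ℕ := {p : ℕ | p.Prime ∧ q₀ ≤ p ∧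
    ∃ w : HeightOneSpectrum (𝓞 L), Ideal.absNorm w.asIdeal = p ∧ w.asIdeal ∉ B ∧
      GoodFor (periods g₀ σ) g₀ (AP w)} with hQ
  have hex : ∀ p : ℕ, ∃ P : Ideal (𝓞 k), p ∈ Q → Ideal.absNorm P = p ∧
      ∃ (R : Set (𝓞 k ⧸ P ^ 2)) (S : Set ((i : r) → Fin (n i) → 𝓞 k ⧸ P)),
        p - 1 ≤ Nat.card R ∧ δ * ((p : ℝ) ^ ∑ i, n i) ≤ Nat.card S ∧
      ∀ (a : 𝓞 k) (x : (i : r) → Fin (n i) → 𝓞 k), Ideal.Quotient.mk (P ^ 2) a ∈ R →
        (fun i j => Ideal.Quotient.mk P (x i j)) ∈ S → ∀ ℓ : ℕ, ℓ.Prime → ℓ ≠ p → ¬ ℓ ∣ μ →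
          SecExt K (Set.range n ∪ periods g₀ σ) ℓ
            (ev G (algebraMap k K (a : k)) *
              ∏ i, mon (n i) (fun j => algebraMap k K (x i j : k)))
            (Lam (c.eval (algebraMap k K (a : k)))
              (fun j => (d j).eval (algebraMap k K (a : k)))) := by
    intro p
    by_cases h : p ∈ Q
    · obtain ⟨hp, hqp, w, hw, hwB, hwg⟩ := h
      rw [hB] at hwB
      have hm := hmod w.asIdeal w.isPrime (fun h => hwB (Or.inl (Or.inl (Or.inl h)))) (AP w)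
        (AP_int w) (AP_lt w)
      obtain ⟨P, hP⟩ := exists_RS (k := k) (K := K) (L := L) (n := n) G c d t₀ μ c₁ hc hc₁ hd hGd δ
        q₀ hq₀ p hp hqp w hw (periods g₀ σ) (by rw [hg₀]; exact hwg)
        (hmod₁ w.asIdeal w.isPrime (fun h => hwB (Or.inl (Or.inl (Or.inr h)))) (AP w) (AP_int w)
          (AP_lt w) t₀ (Finset.mem_singleton_self t₀))
        hm.1 hm.2
        (fun j => hmodd j w.asIdeal w.isPrime (fun h => hwB (Or.inr (Set.mem_iUnion.2 ⟨j, h⟩)))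
          (AP w) (AP_int w) (AP_lt w))
        (hun w.asIdeal w.isPrime w.ne_bot fun h => hwB (Or.inl (Or.inr h)))
      exact ⟨P, fun _ => hP⟩
    · exact ⟨⊥, fun h' => absurd h' h⟩
  choose Pf hPf using hex
  have hexS : ∀ p : ℕ, ∃ (R : Set (𝓞 k ⧸ Pf p ^ 2))
      (S : Set ((i : r) → Fin (n i) → 𝓞 k ⧸ Pf p)), p ∈ Q →
      (p - 1 ≤ Nat.card R ∧ δ * ((p : ℝ) ^ ∑ i, n i) ≤ Nat.card S ∧
      ∀ (a : 𝓞 k) (x : (i : r) → Fin (n i) → 𝓞 k), Ideal.Quotient.mk (Pf p ^ 2) a ∈ R →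
        (fun i j => Ideal.Quotient.mk (Pf p) (x i j)) ∈ S → ∀ ℓ : ℕ, ℓ.Prime → ℓ ≠ p →
          ¬ ℓ ∣ μ → SecExt K (Set.range n ∪ periods g₀ σ) ℓ
            (ev G (algebraMap k K (a : k)) *
              ∏ i, mon (n i) (fun j => algebraMap k K (x i j : k)))
            (Lam (c.eval (algebraMap k K (a : k)))
              (fun j => (d j).eval (algebraMap k K (a : k))))) := by
    intro p
    by_cases h : p ∈ Q
    · obtain ⟨R, S, hS⟩ := (hPf p h).2
      exact ⟨R, S, fun _ => hS⟩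
    · exact ⟨∅, ∅, fun h' => absurd h' h⟩
  choose Rf Sf hSf using hexS
  have hex2 : ∀ p : ℕ, ∃ A : Set (Idx n ι → ZMod (p ^ 2)), p ∈ Q →
      ((Nat.card A : ℝ) ≤ (1 - (δ / 2) / p) * ((p : ℝ) ^ 2) ^ (Fintype.card (Idx n ι)) ∧
      ∀ z : Idx n ι → ℤ, ¬ GoodY b (Pf p) (Rf p) (Sf p) z →
        (fun x => (z x : ZMod (p ^ 2))) ∈ A) := by
    intro p
    by_cases h : p ∈ Q
    · obtain ⟨A, hA⟩ := exists_class b δ hδ p h.1 (Pf p) (hPf p h).1 (Rf p) (hSf p h).1 (Sf p)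
        (hSf p h).2.1
      exact ⟨A, fun _ => hA⟩
    · exact ⟨∅, fun h' => absurd h' h⟩
  choose Sp hSp using hex2
  obtain ⟨Q₁, Q₂, hQ₁, hQ₂, hdis, hs₁, hs₂⟩ := SUP.exists_split Q (fun p hp => hp.1.pos)
    (good_set g₀ hsep σ q₀ B hBfin)
  let X : Set ℕ → Set (Idx n ι → ℤ) := fun T => {z | ∀ p ∈ T, ¬ GoodY b (Pf p) (Rf p) (Sf p) z}
  have hd : ∀ T : Set ℕ, T ⊆ Q → ¬ Summable (fun p : T => ((p : ℕ) : ℝ)⁻¹) →
      ∃ M : ℕ, ∀ (u : Idx n ι → ℤ) (N : Idx n ι → ℕ), (∀ x, M ≤ N x) →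
      (Nat.card {z : Idx n ι → ℤ // (∀ x, u x ≤ z x ∧ z x < u x + N x) ∧ z ∈ X T} : ℝ) ≤
        (ε / 2) * ∏ x, (N x : ℝ) := by
    intro T hT hTs
    exact banach_zero T (fun p hp => (hT hp).1) hTs (δ / 2) (by positivity) Sp
      (fun p hp => (hSp p (hT hp)).1) (X T)
      (fun z hz p hp => (hSp p (hT hp)).2 z (hz p hp)) (ε / 2) (by positivity)
  obtain ⟨M₁, hM₁⟩ := hd Q₁ hQ₁ hs₁
  obtain ⟨M₂, hM₂⟩ := hd Q₂ hQ₂ hs₂
  have hsub : ∀ z : Idx n ι → ℤ,
      ¬ AllExt K n (periods g₀ σ) μ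
          (ev G (algebraMap k K (aOf b z : k)) *
            ∏ i, mon (n i) (fun j => algebraMap k K (cOf b z i j : k)))
          (Lam (c.eval (algebraMap k K (aOf b z : k)))
            (fun j => (d j).eval (algebraMap k K (aOf b z : k)))) →
      z ∈ X Q₁ ∨ z ∈ X Q₂ := by
    intro z hz
    by_contra hcon
    push Not at hcon
    obtain ⟨h1, h2⟩ := hcon
    have h1' : ∃ p ∈ Q₁, GoodY b (Pf p) (Rf p) (Sf p) z := by
      by_contra h
      push Not at h
      exact h1 h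
    have h2' : ∃ p ∈ Q₂, GoodY b (Pf p) (Rf p) (Sf p) z := by
      by_contra h
      push Not at h
      exact h2 h
    obtain ⟨p, hp, hpz⟩ := h1'
    obtain ⟨q, hq, hqz⟩ := h2'
    have hpq : p ≠ q := by
      rintro rfl
      exact (Set.disjoint_left.1 hdis hp) hq
    apply hz
    intro ℓ hℓ hℓμ
    by_cases h : ℓ = p
    · exact (hSf q (hQ₂ hq)).2.2 _ _ hqz.1 hqz.2 ℓ hℓ (by rw [h]; exact hpq) hℓμ
    · exact (hSf p (hQ₁ hp)).2.2 _ _ hpz.1 hpz.2 ℓ hℓ h hℓμ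
  refine ⟨max M₁ M₂, fun u N hN => ?_⟩
  have h1r := card_union_le _ (fun z => z ∈ X Q₁) (fun z => z ∈ X Q₂) _ (box_finite u N) hsub
  have e1 := hM₁ u N (fun x => (le_max_left _ _).trans (hN x))
  have e2 := hM₂ u N (fun x => (le_max_right _ _).trans (hN x))
  refine (h1r.trans (add_le_add e1 e2)).trans (le_of_eq ?_)
  ring

/-- All `σ` at once. -/
theorem main {ι : Type} [Fintype ι] (b : Module.Basis ι ℤ (𝓞 k)) {r : Type} [Fintype r]
    (n : r → ℕ) (hn : ∀ i, 2 ≤ n i) {s : Type} [Fintype s] (G : K[X][X]) (c : K[X]) (hc0 : c ≠ 0)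
    (d : s → K[X]) (t₀ : L) (hd : ∀ j, aeval t₀ (d j) ≠ 0)
    (hGd : (ev G t₀).natDegree = G.natDegree) (hsep : (ev G t₀).Separable) (ε : ℝ) (hε : 0 < ε) :
    ∃ M : ℕ, ∀ (u : Idx n ι → ℤ) (N : Idx n ι → ℕ), (∀ x, M ≤ N x) →
      (Nat.card {z : Idx n ι → ℤ // (∀ x, u x ≤ z x ∧ z x < u x + N x) ∧
        ¬ ∀ σ : (ev G t₀).SplittingField ≃ₐ[L] (ev G t₀).SplittingField,
          AllExt K n (periods (ev G t₀) σ) (rootMultiplicity t₀ (c.map (algebraMap K L)))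
          (ev G (algebraMap k K (aOf b z : k)) *
            ∏ i, mon (n i) (fun j => algebraMap k K (cOf b z i j : k)))
          (Lam (c.eval (algebraMap k K (aOf b z : k)))
            (fun j => (d j).eval (algebraMap k K (aOf b z : k))))} : ℝ) ≤
        ε * ∏ x, (N x : ℝ) := by
  classical
  have hcm : c.map (algebraMap K L) ≠ 0 :=
    (Polynomial.map_ne_zero_iff (algebraMap K L).injective).2 hc0
  obtain ⟨c₁, hc₁, hc₂⟩ := exists_eq_pow_rootMultiplicity_mul_and_not_dvd _ hcm t₀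
  have hc₃ : c₁.eval t₀ ≠ 0 := fun h => hc₂ (dvd_iff_isRoot.2 h)
  obtain ⟨μ, hμ⟩ : ∃ μ, μ = rootMultiplicity t₀ (c.map (algebraMap K L)) := ⟨_, rfl⟩
  rw [← hμ] at hc₁ ⊢
  obtain ⟨g₀, hg₀⟩ : ∃ g₀, ev G t₀ = g₀ := ⟨_, rfl⟩
  rw [hg₀] at hsep ⊢
  have hfin : Module.Finite L g₀.SplittingField := inferInstance
  have hfG : Finite (g₀.SplittingField ≃ₐ[L] g₀.SplittingField) := inferInstance
  have key : ∀ T : Finset (g₀.SplittingField ≃ₐ[L] g₀.SplittingField), ∀ η : ℝ, 0 < η →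
      ∃ M : ℕ, ∀ (u : Idx n ι → ℤ) (N : Idx n ι → ℕ), (∀ x, M ≤ N x) →
      (Nat.card {z : Idx n ι → ℤ // (∀ x, u x ≤ z x ∧ z x < u x + N x) ∧
        ¬ ∀ σ ∈ T, AllExt K n (periods g₀ σ) μ
          (ev G (algebraMap k K (aOf b z : k)) *
            ∏ i, mon (n i) (fun j => algebraMap k K (cOf b z i j : k)))
          (Lam (c.eval (algebraMap k K (aOf b z : k)))
            (fun j => (d j).eval (algebraMap k K (aOf b z : k))))} : ℝ) ≤
        η * ∏ x, (N x : ℝ) := by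
    intro T
    induction T using Finset.induction_on with
    | empty =>
      intro η hη
      refine ⟨0, fun u N _ => ?_⟩
      have h1 : IsEmpty {z : Idx n ι → ℤ // (∀ x, u x ≤ z x ∧ z x < u x + N x) ∧
        ¬ ∀ σ ∈ (∅ : Finset (g₀.SplittingField ≃ₐ[L] g₀.SplittingField)),
          AllExt K n (periods g₀ σ) μ
          (ev G (algebraMap k K (aOf b z : k)) *
            ∏ i, mon (n i) (fun j => algebraMap k K (cOf b z i j : k)))
          (Lam (c.eval (algebraMap k K (aOf b z : k)))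
            (fun j => (d j).eval (algebraMap k K (aOf b z : k))))} :=
        ⟨fun z => z.2.2 fun σ hσ => absurd hσ (Finset.notMem_empty σ)⟩
      rw [Nat.card_of_isEmpty]
      push_cast
      positivity
    | insert σ T hσ ih =>
      intro η hη
      obtain ⟨M₁, hM₁⟩ := ih (η / 2) (by positivity)
      obtain ⟨M₂, hM₂⟩ := main_one K L b n hn G c d t₀ μ c₁ hc₁ hc₃
        (fun j => by rw [eval_map_algebraMap]; exact hd j) hGd g₀ hg₀ hsep σ (η / 2)
        (by positivity)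
      refine ⟨max M₁ M₂, fun u N hN => ?_⟩
      have e1 := hM₁ u N (fun x => (le_max_left _ _).trans (hN x))
      have e2 := hM₂ u N (fun x => (le_max_right _ _).trans (hN x))
      have h1 := card_union_le (fun z : Idx n ι → ℤ => ∀ x, u x ≤ z x ∧ z x < u x + N x)
        (fun z => ¬ ∀ σ ∈ T, AllExt K n (periods g₀ σ) μ
          (ev G (algebraMap k K (aOf b z : k)) *
            ∏ i, mon (n i) (fun j => algebraMap k K (cOf b z i j : k)))
          (Lam (c.eval (algebraMap k K (aOf b z : k)))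
            (fun j => (d j).eval (algebraMap k K (aOf b z : k)))))
        (fun z => ¬ AllExt K n (periods g₀ σ) μ
          (ev G (algebraMap k K (aOf b z : k)) *
            ∏ i, mon (n i) (fun j => algebraMap k K (cOf b z i j : k)))
          (Lam (c.eval (algebraMap k K (aOf b z : k)))
            (fun j => (d j).eval (algebraMap k K (aOf b z : k)))))
        (fun z => ¬ ∀ τ ∈ insert σ T, AllExt K n (periods g₀ τ) μ
          (ev G (algebraMap k K (aOf b z : k)) *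
            ∏ i, mon (n i) (fun j => algebraMap k K (cOf b z i j : k)))
          (Lam (c.eval (algebraMap k K (aOf b z : k)))
            (fun j => (d j).eval (algebraMap k K (aOf b z : k))))) (box_finite u N) (by
          intro z hz
          by_contra hcon
          push Not at hcon
          apply hz
          intro τ hτ
          rcases Finset.mem_insert.1 hτ with rfl | hτ'
          · exact hcon.2
          · exact hcon.1 τ hτ')
      refine (h1.trans (add_le_add e1 e2)).trans (le_of_eq ?_)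
      ring
  have hft : Fintype (g₀.SplittingField ≃ₐ[L] g₀.SplittingField) := Fintype.ofFinite _
  obtain ⟨M, hM⟩ := key Finset.univ ε hε
  refine ⟨M, fun u N hN => ?_⟩
  have h1 := hM u N hN
  simp only [Finset.mem_univ, forall_true_left] at h1
  exact h1

end SUE
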