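import Pool.Agent.MP_c1dca2_ag.SUE.V1

/-!
# [SUE-V2] The map of the valuation rings of two primes
-/

set_option autoImplicit false
set_option linter.unusedSectionVars false

open NumberField IsLocalRing Polynomial IsDedekindDomain

namespace SUE

variable {K L : Type} [Field K] [NumberField K] [Field L] [NumberField L] [Algebra K L]
  (v : HeightOneSpectrum (𝓞 K)) (w : HeightOneSpectrum (𝓞 L)) [hw : w.asIdeal.LiesOver v.asIdeal]

theorem val_map (x : K) : w.valuation L (algebraMap K L x) =
    v.valuation K x ^ (v.asIdeal.ramificationIdx' w.asIdeal) :=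
  (HeightOneSpectrum.valuation_liesOver L v w x).symm

theorem e_ne : v.asIdeal.ramificationIdx' w.asIdeal ≠ 0 :=
  Ideal.IsDedekindDomain.ramificationIdx'_ne_zero_of_liesOver w.asIdeal v.ne_bot

theorem map_mem (x : K) (hx : x ∈ AP v) : algebraMap K L x ∈ AP w := by
  rw [mem_AP] at hx ⊢
  rw [val_map v w]
  exact pow_le_one' hx _

theorem map_lt (x : K) (hx : (AP v).valuation x < 1) :
    (AP w).valuation (algebraMap K L x) < 1 := by
  rw [AP_lt'] at hx ⊢
  rw [val_map v w]
  exact pow_lt_one' hx (e_ne v w)

/-- The map of the valuation rings. -/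
noncomputable def jj : AP v →+* AP w where
  toFun x := ⟨algebraMap K L (x : K), map_mem v w x x.2⟩
  map_one' := Subtype.ext (by simp)
  map_mul' x y := Subtype.ext (by simp)
  map_zero' := Subtype.ext (by simp)
  map_add' x y := Subtype.ext (by simp)

theorem jj_coe (x : AP v) : ((jj v w x : AP w) : L) = algebraMap K L (x : K) := rfl

instance jj_local : IsLocalHom (jj v w) := by
  refine ⟨fun a ha => ?_⟩
  by_contra h
  have h1 : (AP v).valuation (a : K) < 1 := by
    rw [← (AP v).valuation_lt_one_iff]
    exact h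
  have h2 := map_lt v w _ h1
  have h3 : (jj v w a) ∈ maximalIdeal (AP w) := by
    rw [(AP w).valuation_lt_one_iff]
    exact h2
  exact h3 ha

/-- The map of the residue fields. -/
noncomputable def jr : ResidueField (AP v) →+* ResidueField (AP w) := ResidueField.map (jj v w)

theorem jr_residue (x : AP v) : jr v w (residue (AP v) x) = residue (AP w) (jj v w x) := rfl

theorem card_w : Nat.card (ResidueField (AP w)) =
    Nat.card (ResidueField (AP v)) ^ v.asIdeal.inertiaDeg' w.asIdeal := by
  rw [AP_card, AP_card]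
  exact Ideal.absNorm_eq_pow_inertiaDeg'_of_liesOver w.asIdeal v.asIdeal v.isPrime v.ne_bot

theorem no_root_of (g : (AP v)[X])
    (hq : ∀ q : (ResidueField (AP v))[X], Irreducible q → q ∣ g.map (residue (AP v)) →
      ¬ q.natDegree ∣ v.asIdeal.inertiaDeg' w.asIdeal) (a : ResidueField (AP w)) :
    ((g.map (jj v w)).map (residue (AP w))).eval a ≠ 0 := by
  intro ha
  let _ : Algebra (ResidueField (AP v)) (ResidueField (AP w)) := (jr v w).toAlgebra
  have h1 : (g.map (jj v w)).map (residue (AP w)) = (g.map (residue (AP v))).map (jr v w) := by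
    rw [Polynomial.map_map, Polynomial.map_map]
    rfl
  rw [h1] at ha
  have h2 : aeval a (g.map (residue (AP v))) = 0 := by
    rw [aeval_def, ← eval_map]
    exact ha
  have hfin : Module.Finite (ResidueField (AP v)) (ResidueField (AP w)) := Module.Finite.of_finite
  have hint : IsIntegral (ResidueField (AP v)) a := Algebra.IsIntegral.isIntegral a
  have h3 := minpoly.dvd _ _ h2
  refine hq _ (minpoly.irreducible hint) h3 ?_
  have h4 : (minpoly (ResidueField (AP v)) a).natDegree ∣
      Module.finrank (ResidueField (AP v)) (ResidueField (AP w)) := minpoly.degree_dvd hint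
  have h5 := Module.natCard_eq_pow_finrank (K := ResidueField (AP v)) (V := ResidueField (AP w))
  rw [card_w v w] at h5
  have h6 : 2 ≤ Nat.card (ResidueField (AP v)) := Finite.one_lt_card
  rw [Nat.pow_right_injective h6 h5]
  exact h4

theorem not_pow (ℓ μ : ℕ) (hℓ : ¬ ℓ ∣ v.asIdeal.ramificationIdx' w.asIdeal * μ) (c : K)
    (hc : v.valuation K c = WithZero.exp (-(μ : ℤ))) (b : L) :
    (AP w).valuation (algebraMap K L c) ≠ (AP w).valuation b ^ ℓ := by
  intro hb
  have h1 : w.valuation L (algebraMap K L c) = w.valuation L b ^ ℓ := by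
    rw [← map_pow] at hb ⊢
    exact (AP_equiv w).eq_iff.mpr hb
  rw [val_map v w, hc, ← WithZero.exp_nsmul] at h1
  rcases Nat.eq_zero_or_pos ℓ with h2 | h2
  · rw [h2, pow_zero, ← WithZero.exp_zero, WithZero.exp_inj] at h1
    apply hℓ
    rw [h2, Nat.zero_dvd]
    simp only [nsmul_eq_mul] at h1
    have h3 : ((v.asIdeal.ramificationIdx' w.asIdeal * μ : ℕ) : ℤ) = 0 := by
      push_cast
      linear_combination -h1
    exact_mod_cast h3
  have hb0 : w.valuation L b ≠ 0 := by
    intro h0
    rw [h0, zero_pow h2.ne'] at h1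
    exact WithZero.exp_ne_zero h1
  obtain ⟨n, hn⟩ : ∃ n : ℤ, w.valuation L b = WithZero.exp n :=
    ⟨_, (WithZero.exp_log hb0).symm⟩
  rw [hn, ← WithZero.exp_nsmul, WithZero.exp_inj] at h1
  simp only [nsmul_eq_mul] at h1
  apply hℓ
  rw [← Int.natCast_dvd_natCast]
  refine ⟨-n, ?_⟩
  push_cast
  linear_combination -h1

end SUE
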