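import Pool.Agent.MP_c1dca2_ag.SUE.V3
import Pool.Agent.MP_c1dca2_ag.SUU.U4
import Pool.Agent.MP_c1dca2_ag.SUU.U5

/-!
# [SUE-V4] No sections over extensions if the prime `v` is good for the curve (variant of SUU-U6)
-/

set_option autoImplicit false

open Polynomial NumberField IsLocalRing IsDedekindDomain SUU

namespace SUE

variable {k : Type} [Field k] [NumberField k]

variable {r : Type} [Fintype r] {n : r → ℕ}

/-- Values of polynomials which are not zero at `t₀`. -/
theorem val_eval_one (v : HeightOneSpectrum (𝓞 k)) (q : k[X]) (t₀ : k) (ht₀ : t₀ ∈ AP v)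
    (hq : q.eval t₀ ≠ 0) (hmod : ∃ q' : (AP v)[X], q'.map (AP v).subtype = q)
    (hinv : (q.eval t₀)⁻¹ ∈ AP v) (a : k) (ha : v.valuation k (a - t₀) < 1) :
    v.valuation k (q.eval a) = 1 := by
  obtain ⟨q', hq'⟩ := hmod
  have haA : a - t₀ ∈ AP v := (mem_AP v _).2 ha.le
  have haA' : a ∈ AP v := by
    have := (AP v).add_mem _ _ haA ht₀
    rwa [sub_add_cancel] at this
  obtain ⟨a', ha'⟩ : ∃ a' : AP v, (a' : k) = a := ⟨⟨a, haA'⟩, rfl⟩
  obtain ⟨t', ht'⟩ : ∃ t' : AP v, (t' : k) = t₀ := ⟨⟨t₀, ht₀⟩, rfl⟩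
  have hτa : residue (AP v) a' = residue (AP v) t' := by
    rw [← sub_eq_zero, ← map_sub, residue_eq_zero_iff, (AP v).valuation_lt_one_iff]
    push_cast
    rw [ha', ht', AP_lt']
    exact ha
  have hres : residue (AP v) (q'.eval a') = residue (AP v) (q'.eval t') := by
    have e1 := Polynomial.hom_eval₂ q' (RingHom.id (AP v)) (residue (AP v)) a'
    have e2 := Polynomial.hom_eval₂ q' (RingHom.id (AP v)) (residue (AP v)) t'
    rw [hτa] at e1
    exact e1.trans e2.symm
  have hsub : ∀ x : AP v, ((q'.eval x : AP v) : k) = q.eval (x : k) := by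
    intro x
    rw [← hq']
    exact (Polynomial.eval_map_apply (AP v).subtype x).symm
  have e1 : (AP v).valuation (q.eval t₀) = 1 := by
    have h1 : (AP v).valuation (q.eval t₀) ≤ 1 := by
      rw [← ht', ← hsub]
      exact ((AP v).valuation_le_one_iff _).2 (q'.eval t').2
    have h2 : (AP v).valuation (q.eval t₀)⁻¹ ≤ 1 := ((AP v).valuation_le_one_iff _).2 hinv
    rw [map_inv₀] at h2
    have h4 : (AP v).valuation (q.eval t₀) ≠ 0 := by
      rw [Ne, map_eq_zero]
      exact hq
    exact le_antisymm h1 ((inv_le_one₀ (zero_lt_iff.2 h4)).1 h2)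
  have e2 : residue (AP v) (q'.eval a') ≠ 0 := by
    rw [hres]
    intro h1
    rw [residue_eq_zero_iff, ValuationSubring.valuation_lt_one_iff, hsub, ht', e1] at h1
    exact lt_irrefl _ h1
  have e3 : IsUnit (q'.eval a') := by
    by_contra h1
    exact e2 ((residue_eq_zero_iff _).2 h1)
  have e4 := ((AP v).valuation_eq_one_iff _).1 e3
  rw [hsub, ha', ← (AP_equiv v).eq_one_iff_eq_one] at e4
  exact e4

theorem exists_S (G : k[X][X]) (t₀ : k)
    (hGd : (G.map (evalRingHom t₀)).natDegree = G.natDegree) (δ : ℝ) (q₀ : ℕ)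
    (hδ : ∀ (F : Type) [Field F] [Finite F], q₀ ≤ Nat.card F →
      ∀ h : F[X], h ≠ 0 → h.natDegree ≤ G.natDegree →
      δ * ((Nat.card F : ℝ) ^ ∑ i, n i) ≤
        Nat.card {c : (i : r) → Fin (n i) → F // GoodT n c ∧ ∀ i, ¬ mon (n i) (c i) ∣ h})
    (p : ℕ) (hp : p.Prime) (hqp : q₀ ≤ p) (P : Ideal (𝓞 k)) (hP : Ideal.absNorm P = p)
    (v : HeightOneSpectrum (𝓞 k)) (hv : v.asIdeal = P) (Per : Set ℕ)
    (hg : GoodFor Per (G.map (evalRingHom t₀)) (AP v)) (ht₀ : t₀ ∈ AP v)
    (hmod : ∃ G' : (AP v)[X][X], G'.map (mapRingHom (AP v).subtype) = G) :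
    ∃ S : Set ((i : r) → Fin (n i) → 𝓞 k ⧸ P), δ * ((p : ℝ) ^ ∑ i, n i) ≤ Nat.card S ∧
      ∀ (a : k) (c : (i : r) → Fin (n i) → 𝓞 k), v.valuation k (a - t₀) < 1 →
        (fun i j => Ideal.Quotient.mk P (c i j)) ∈ S →
          GoodFor (Set.range n ∪ Per)
            (G.map (evalRingHom a) * ∏ i, mon (n i) (fun j => (c i j : k))) (AP v) := by
  classical
  obtain ⟨A, hA⟩ : ∃ A, A = AP v := ⟨_, rfl⟩
  rw [← hA] at hg ht₀ hmod
  obtain ⟨g', hg1, hg2, hg3, hg4⟩ := hg
  have hA3 : Nat.card (ResidueField A) = Ideal.absNorm P := by rw [hA, AP_card, hv]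
  have hA2 : Finite (ResidueField A) := by rw [hA]; exact AP_finite v
  have hA4 : ∀ x : 𝓞 k, (x : k) ∈ A := by rw [hA]; exact AP_int v
  have hA5 : ∀ x : 𝓞 k, A.valuation (x : k) < 1 ↔ x ∈ P := by rw [hA, ← hv]; exact AP_lt v
  obtain ⟨G', hG'⟩ := hmod
  set g : k[X] := G.map (evalRingHom t₀) with hgdef
  have hPp : P.IsPrime := Ideal.isPrime_of_irreducible_absNorm (by rw [hP]; exact hp)
  have hP0 : P ≠ ⊥ := by
    rintro rfl
    rw [Ideal.absNorm_bot] at hP
    exact hp.ne_zero hP.symm
  have hPm : P.IsMaximal := hPp.isMaximal hP0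
  -- the homomorphism to the residue field
  let τ : 𝓞 k →+* A :=
    { toFun := fun x => ⟨(x : k), hA4 x⟩
      map_one' := by apply Subtype.ext; simp
      map_mul' := fun x y => by apply Subtype.ext; simp
      map_zero' := by apply Subtype.ext; simp
      map_add' := fun x y => by apply Subtype.ext; simp }
  have hker : ∀ x : 𝓞 k, residue A (τ x) = 0 ↔ x ∈ P := by
    intro x
    rw [residue_eq_zero_iff, ← hA5 x]
    exact A.valuation_lt_one_iff (τ x)
  let θ₀ : (𝓞 k ⧸ P) →+* ResidueField A :=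
    Ideal.Quotient.lift P ((residue A).comp τ) (fun x hx => (hker x).2 hx)
  have hinj : Function.Injective θ₀ := by
    let _ : Field (𝓞 k ⧸ P) := Ideal.Quotient.field P
    exact θ₀.injective
  have hfinP : Finite (𝓞 k ⧸ P) := by
    apply Nat.finite_of_card_ne_zero
    rw [card_P p P hP]
    exact hp.ne_zero
  have hbij : Function.Bijective θ₀ :=
    hinj.bijective_of_nat_card_le (by rw [hA3, Ideal.absNorm_apply, Submodule.cardQuot_apply])
  let θ : (𝓞 k ⧸ P) ≃+* ResidueField A := RingEquiv.ofBijective θ₀ hbij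
  set h : (𝓞 k ⧸ P)[X] :=
    (g'.map (residue A)).map (θ.symm : ResidueField A →+* (𝓞 k ⧸ P)) with hh
  have hθh : h.map (θ : (𝓞 k ⧸ P) →+* ResidueField A) = g'.map (residue A) := by
    rw [hh, Polynomial.map_map]
    have : (θ : (𝓞 k ⧸ P) →+* ResidueField A).comp
        (θ.symm : ResidueField A →+* (𝓞 k ⧸ P)) = RingHom.id _ := by
      ext x
      exact θ.apply_symm_apply x
    rw [this, Polynomial.map_id]
  have hgnat' : g'.natDegree = G.natDegree := by
    rw [← hGd, ← hg1, natDegree_map_eq_of_injective A.subtype_injective]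
  have hh0 : h ≠ 0 := by
    intro h0
    rw [h0, Polynomial.map_zero] at hθh
    exact hg2.ne_zero hθh.symm
  have hhd : h.natDegree ≤ G.natDegree := by
    rw [hh]
    exact natDegree_map_le.trans (natDegree_map_le.trans hgnat'.le)
  refine ⟨{c | GoodT n c ∧ ∀ i, ¬ mon (n i) (c i) ∣ h}, ?_, ?_⟩
  · let inst : Field (𝓞 k ⧸ P) := Ideal.Quotient.field P
    have h1 := @hδ (𝓞 k ⧸ P) inst hfinP (by rw [card_P p _ hP]; exact hqp) h hh0 hhd
    rw [card_P p _ hP] at h1
    exact h1
  intro a c ha hcS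
  obtain ⟨hc, hch⟩ := hcS
  have haA : a - t₀ ∈ A := by
    rw [hA, mem_AP]
    exact ha.le
  have haA' : a ∈ A := by
    have := A.add_mem _ _ haA ht₀
    rwa [sub_add_cancel] at this
  obtain ⟨a', ha'⟩ : ∃ a' : A, (a' : k) = a := ⟨⟨a, haA'⟩, rfl⟩
  obtain ⟨t', ht'⟩ : ∃ t' : A, (t' : k) = t₀ := ⟨⟨t₀, ht₀⟩, rfl⟩
  have hτa : residue A a' = residue A t' := by
    rw [← sub_eq_zero, ← map_sub, residue_eq_zero_iff, A.valuation_lt_one_iff]
    push_cast
    rw [ha', ht', hA, AP_lt']
    exact ha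
  -- the polynomial `G(a, x)` over `A`
  have hres : ∀ q : A[X], residue A (q.eval a') = residue A (q.eval t') := by
    intro q
    have e1 := Polynomial.hom_eval₂ q (RingHom.id A) (residue A) a'
    have e2 := Polynomial.hom_eval₂ q (RingHom.id A) (residue A) t'
    rw [hτa] at e1
    exact e1.trans e2.symm
  have hsub : ∀ (q : A[X]) (x : A), ((q.eval x : A) : k) = (q.map A.subtype).eval (x : k) := by
    intro q x
    exact (Polynomial.eval_map_apply A.subtype x).symm
  let Ga : A[X] := G'.map (evalRingHom a')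
  have hGa0 : ∀ x : A, (G'.map (evalRingHom x)).map A.subtype = G.map (evalRingHom (x : k)) := by
    intro x
    rw [← hG', Polynomial.map_map, Polynomial.map_map]
    congr 1
    ext q
    · show ((((C q : A[X]).eval x : A)) : k) = ((C q : A[X]).map A.subtype).eval (x : k)
      exact hsub _ _
    · show ((((X : A[X]).eval x : A)) : k) = ((X : A[X]).map A.subtype).eval (x : k)
      exact hsub _ _
  have hg'G' : g' = G'.map (evalRingHom t') := by
    apply Polynomial.map_injective A.subtype A.subtype_injective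
    rw [hg1, hGa0 t', ht']
  have hGak : Ga.map A.subtype = G.map (evalRingHom a) := by
    rw [← ha']
    exact hGa0 a'
  have hGar : Ga.map (residue A) = g'.map (residue A) := by
    rw [hg'G']
    show (G'.map (evalRingHom a')).map (residue A) = (G'.map (evalRingHom t')).map (residue A)
    ext i
    rw [coeff_map, coeff_map, coeff_map, coeff_map]
    exact hres _
  have hGanat : Ga.natDegree = G.natDegree := by
    apply le_antisymm
    · refine natDegree_map_le.trans ?_
      rw [← hG', natDegree_map_eq_of_injective]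
      exact Polynomial.map_injective _ A.subtype_injective
    · rw [← hgnat', ← hg3, ← hGar]
      exact natDegree_map_le
  have hGas : (Ga.map (residue A)).Separable := by
    rw [hGar]
    exact hg2
  have hGad : (Ga.map (residue A)).natDegree = Ga.natDegree := by
    rw [hGar, hg3, hgnat', hGanat]
  -- the polynomials over `A` and over the residue field
  let f : r → A[X] := fun i => mon (n i) (fun j => τ (c i j))
  have hfm : ∀ i, (f i).Monic := fun i => mon_monic _ _
  have hfr : ∀ i, (f i).map (residue A) =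
      (mon (n i) (fun j => Ideal.Quotient.mk P (c i j))).map
        (θ : (𝓞 k ⧸ P) →+* ResidueField A) := by
    intro i
    rw [mon_map, mon_map]
    rfl
  have hirr : ∀ i, Irreducible ((f i).map (residue A)) := by
    intro i
    rw [hfr]
    have h1 := hc.1 i
    exact (MulEquiv.irreducible_iff (Polynomial.mapEquiv θ)).2 h1
  have hne : ∀ i j, i ≠ j → (f i).map (residue A) ≠ (f j).map (residue A) := by
    intro i j hij h1
    rw [hfr, hfr] at h1
    exact hc.2 i j hij (Polynomial.map_injective _ θ.injective h1)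
  have hndvd : ∀ i, ¬ (f i).map (residue A) ∣ Ga.map (residue A) := by
    intro i h1
    rw [hfr, hGar, ← hθh] at h1
    apply hch i
    exact (map_dvd_iff (Polynomial.mapEquiv θ)).1 h1
  have hfnat : ∀ i, (f i).natDegree = n i := fun i => mon_natDegree _ _
  have hfrnat : ∀ i, ((f i).map (residue A)).natDegree = n i := fun i => by
    rw [(hfm i).natDegree_map, hfnat]
  have hPm' : (∏ i, f i).Monic := monic_prod_of_monic _ _ fun i _ => hfm i
  have hPnat : (∏ i, f i).natDegree = ∑ i, n i := by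
    rw [natDegree_prod_of_monic _ _ fun i _ => hfm i]
    exact Finset.sum_congr rfl fun i _ => hfnat i
  have hPmap : (∏ i, f i).map (residue A) = ∏ i, (f i).map (residue A) := Polynomial.map_prod _ _ _
  have hGa00 : Ga ≠ 0 := by
    intro h0
    rw [h0, Polynomial.map_zero] at hGas
    exact hGas.ne_zero rfl
  have hGnat : (Ga * ∏ i, f i).natDegree = G.natDegree + ∑ i, n i := by
    rw [natDegree_mul hGa00 hPm'.ne_zero, hPnat, hGanat]
  have hGmap : (Ga * ∏ i, f i).map (residue A) =
      Ga.map (residue A) * ∏ i, (f i).map (residue A) := by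
    rw [Polynomial.map_mul, hPmap]
  have hmap : (Ga * ∏ i, f i).map A.subtype =
      G.map (evalRingHom a) * ∏ i, mon (n i) (fun j => (c i j : k)) := by
    rw [Polynomial.map_mul, hGak, Polynomial.map_prod]
    congr 1
    refine Finset.prod_congr rfl fun i _ => ?_
    rw [mon_map]
    rfl
  rw [← hA]
  refine ⟨Ga * ∏ i, f i, hmap, ?_, ?_, ?_⟩
  · rw [hGmap]
    exact separable_mul_prod _ hGas _ hirr (fun i => (hfm i).map _) hne hndvd
  · rw [hGnat, Polynomial.map_mul, natDegree_mul hGas.ne_zero (hPm'.map _).ne_zero, hGad, hGanat,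
      hPm'.natDegree_map, hPnat]
  · intro q hq1 hq2
    rw [hGmap] at hq2
    rcases hq1.prime.dvd_or_dvd hq2 with h1 | h1
    · rw [hGar] at h1
      obtain ⟨s, hs1, hs2⟩ := hg4 q hq1 h1
      exact ⟨s, Or.inr hs1, hs2⟩
    · obtain ⟨i, -, hi⟩ := hq1.prime.exists_mem_finset_dvd h1
      have h2 : Associated q ((f i).map (residue A)) := hq1.associated_of_dvd (hirr i) hi
      refine ⟨n i, Or.inl ⟨i, rfl⟩, ?_⟩
      rw [natDegree_eq_of_degree_eq (degree_eq_degree_of_associated h2), hfrnat]

end SUE
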