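import Pool.Agent.MP_c1dca2_ag.SUE.V4
import Pool.Agent.MP_c1dca2_ag.SC4.X5

/-!
# [SUE-V5] The degrees of the prime factors mod `P` and the Frobenius element
-/

set_option autoImplicit false

open NumberField IsLocalRing Polynomial IsDedekindDomain

namespace SUE

/-- Iterates of a Frobenius element. -/
theorem frob_iter {k N : Type} [Field k] [Field N] [Algebra k N] (φ : N ≃ₐ[k] N)
    (R : Ideal (𝓞 N)) (p : ℕ) (hφ : SC4.FrobAt φ R p) (d : ℕ) :
    ∀ x y : 𝓞 N, (y : N) = (φ ^ d) (x : N) → y - x ^ (p ^ d) ∈ R := by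
  induction d with
  | zero =>
    intro x y hxy
    have h1 : y = x := RingOfIntegers.ext hxy
    rw [h1, pow_zero, pow_one, sub_self]
    exact R.zero_mem
  | succ d ih =>
    intro x y hxy
    have hint : IsIntegral ℤ ((φ ^ d) (x : N)) :=
      (RingOfIntegers.isIntegral_coe x).map ((φ ^ d).restrictScalars ℤ)
    let z : 𝓞 N := ⟨(φ ^ d) (x : N), hint⟩
    have h1 : z - x ^ (p ^ d) ∈ R := ih x z rfl
    have h2 : y - z ^ p ∈ R := by
      apply hφ
      rw [hxy, pow_succ', AlgEquiv.mul_apply]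
      rfl
    have h3 : z ^ p - (x ^ (p ^ d)) ^ p ∈ R := Ideal.mem_of_dvd R (sub_dvd_pow_sub_pow _ _ p) h1
    have h4 : y - x ^ (p ^ (d + 1)) = (y - z ^ p) + (z ^ p - (x ^ (p ^ d)) ^ p) := by
      rw [pow_succ, pow_mul]
      ring
    rw [h4]
    exact R.add_mem h2 h3

/-- A non constant factor of a product of linear factors has a root among them. -/
theorem exists_root_of_dvd {F : Type} [Field F] {ι : Type} (s : Finset ι) (l : F) (hl : l ≠ 0)
    (α : ι → F) (q : F[X]) (hq : 0 < q.natDegree) (hd : q ∣ C l * ∏ i ∈ s, (X - C (α i))) :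
    ∃ i ∈ s, q.eval (α i) = 0 := by
  obtain ⟨u, hu, huq⟩ := exists_irreducible_of_natDegree_pos hq
  rcases hu.prime.dvd_or_dvd (huq.trans hd) with h1 | h1
  · exact absurd (isUnit_of_dvd_unit h1 (isUnit_C.2 (isUnit_iff_ne_zero.2 hl))) hu.not_isUnit
  · obtain ⟨i, hi, hi2⟩ := hu.prime.exists_mem_finset_dvd h1
    have h2 : Associated u (X - C (α i)) := hu.associated_of_dvd (irreducible_X_sub_C _) hi2
    exact ⟨i, hi, dvd_iff_isRoot.1 (h2.symm.dvd.trans huq)⟩

theorem factor_period {k N : Type} [Field k] [NumberField k] [Field N] [NumberField N]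
    [Algebra k N] (v : HeightOneSpectrum (𝓞 k)) (w : HeightOneSpectrum (𝓞 N))
    [hw : w.asIdeal.LiesOver v.asIdeal] (f : k[X]) (hf : f.Separable)
    (hs : (f.map (algebraMap k N)).Splits) (g : (AP v)[X]) (hg : g.map (AP v).subtype = f)
    (hgs : (g.map (residue (AP v))).Separable)
    (hgd : (g.map (residue (AP v))).natDegree = g.natDegree) (D : ℤ)
    (hD : ∀ r : N, aeval r f = 0 → IsIntegral ℤ ((D : N) * r)) (hDw : (D : 𝓞 N) ∉ w.asIdeal)
    (φ : N ≃ₐ[k] N) (hφ : SC4.FrobAt φ w.asIdeal (Nat.card (ResidueField (AP v))))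
    (q : (ResidueField (AP v))[X]) (hq : Irreducible q) (hqg : q ∣ g.map (residue (AP v))) :
    ∃ r : N, aeval r f = 0 ∧ (φ ^ q.natDegree) r = r := by
  classical
  have hf0 : f ≠ 0 := hf.ne_zero
  let Rt : Finset N := (f.map (algebraMap k N)).roots.toFinset
  have hrt : ∀ r : N, r ∈ Rt ↔ aeval r f = 0 := by
    intro r
    rw [Multiset.mem_toFinset, Polynomial.mem_roots (by
      rw [Polynomial.map_ne_zero_iff (algebraMap k N).injective]; exact hf0), Polynomial.IsRoot.def,
      Polynomial.eval_map_algebraMap]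
  have hDval : w.valuation N (D : N) = 1 := by
    have h1 : w.valuation N ((D : 𝓞 N) : N) ≤ 1 := w.valuation_le_one _
    have h2 : ¬ w.valuation N ((D : 𝓞 N) : N) < 1 := fun h =>
      hDw ((w.valuation_lt_one_iff_mem _).1 h)
    have h3 := le_antisymm h1 (not_lt.1 h2)
    simpa using h3
  have hmem : ∀ r ∈ Rt, r ∈ AP w := by
    intro r hr
    have h1 : w.valuation N (D * r) ≤ 1 :=
      w.valuation_le_one (⟨(D : N) * r, hD r ((hrt r).1 hr)⟩ : 𝓞 N)
    rw [map_mul, hDval, one_mul] at h1
    exact (mem_AP w r).2 h1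
  have hex : ∀ r : N, ∃ a : AP w, r ∈ Rt → (a : N) = r := by
    intro r
    by_cases h : r ∈ Rt
    · exact ⟨⟨r, hmem r h⟩, fun _ => rfl⟩
    · exact ⟨0, fun h' => absurd h' h⟩
  choose α hα using hex
  have hroots : (f.map (algebraMap k N)).roots = Rt.val := by
    have hnd : (f.map (algebraMap k N)).roots.Nodup := Polynomial.nodup_roots hf.map
    exact (Multiset.dedup_eq_self.mpr hnd).symm
  have hfN : f.map (algebraMap k N) = C (algebraMap k N f.leadingCoeff) *
      ∏ r ∈ Rt, (X - C r) := by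
    conv_lhs => rw [hs.eq_prod_roots]
    rw [Polynomial.leadingCoeff_map, hroots]
    rfl
  have hlc : ((g.leadingCoeff : AP v) : k) = f.leadingCoeff := by
    rw [← hg, Polynomial.leadingCoeff_map_of_injective (AP v).subtype_injective]
    rfl
  have hgw : g.map (jj v w) = C (jj v w g.leadingCoeff) * ∏ r ∈ Rt, (X - C (α r)) := by
    apply Polynomial.map_injective (AP w).subtype (AP w).subtype_injective
    rw [Polynomial.map_mul, Polynomial.map_prod, map_C, Polynomial.map_map]
    have h1 : ((AP w).subtype).comp (jj v w) = (algebraMap k N).comp (AP v).subtype := rfl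
    rw [h1, ← Polynomial.map_map, hg, hfN]
    congr 1
    · congr 1
      rw [← hlc]
      rfl
    · refine Finset.prod_congr rfl fun r hr => ?_
      rw [Polynomial.map_sub, map_X, map_C]
      congr 2
      exact (hα r hr).symm
  set lb : ResidueField (AP w) := residue (AP w) (jj v w g.leadingCoeff) with hlb
  have hlb0 : lb ≠ 0 := by
    have h1 : residue (AP v) g.leadingCoeff ≠ 0 := by
      intro h0
      have hne : g.map (residue (AP v)) ≠ 0 := hgs.ne_zero
      have h2 : (g.map (residue (AP v))).coeff g.natDegree = 0 := by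
        rw [coeff_map]
        exact h0
      rw [← hgd] at h2
      exact hne (leadingCoeff_eq_zero.1 h2)
    rw [hlb, ← jr_residue]
    exact (_root_.map_ne_zero (jr v w)).2 h1
  have hred : (g.map (residue (AP v))).map (jr v w) =
      C lb * ∏ r ∈ Rt, (X - C (residue (AP w) (α r))) := by
    have h1 : (g.map (residue (AP v))).map (jr v w) = (g.map (jj v w)).map (residue (AP w)) := by
      rw [Polynomial.map_map, Polynomial.map_map]
      rfl
    rw [h1, hgw, Polynomial.map_mul, Polynomial.map_prod, map_C]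
    congr 1
    refine Finset.prod_congr rfl fun r hr => ?_
    rw [Polynomial.map_sub, map_X, map_C]
  -- the root
  obtain ⟨r, hr, hqr⟩ := exists_root_of_dvd Rt lb hlb0 (fun r => residue (AP w) (α r))
    (q.map (jr v w)) (by rw [natDegree_map]; exact hq.natDegree_pos) (by
      rw [← hred]
      exact Polynomial.map_dvd _ hqg)
  refine ⟨r, (hrt r).1 hr, ?_⟩
  set d := q.natDegree with hd
  set p := Nat.card (ResidueField (AP v)) with hp
  have hqX : q ∣ X ^ p ^ d - X :=
    (Irreducible.natDegree_dvd_iff_dvd_X_pow_card_pow_sub_X hq).1 (dvd_refl _)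
  have hrp : (residue (AP w) (α r)) ^ p ^ d = residue (AP w) (α r) := by
    obtain ⟨u, hu⟩ := hqX
    have h1 := congrArg (fun t => (t.map (jr v w)).eval (residue (AP w) (α r))) hu
    simp only [Polynomial.map_sub, Polynomial.map_pow, map_X, Polynomial.map_mul, eval_sub,
      eval_pow, eval_X, eval_mul, hqr, zero_mul] at h1
    exact sub_eq_zero.1 h1
  -- integral multiples
  have hfin : Fintype (ResidueField (AP v)) := Fintype.ofFinite _
  have hDres : ∀ e : ℕ, ((D : ℤ) : ResidueField (AP w)) ^ p ^ e = ((D : ℤ) : ResidueField (AP w)) := by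
    intro e
    have h1 : ((D : ℤ) : ResidueField (AP w)) = jr v w (D : ResidueField (AP v)) := by
      rw [map_intCast]
    rw [h1, ← map_pow, hp, Nat.card_eq_fintype_card, FiniteField.pow_card_pow]
  have hD0 : ((D : ℤ) : ResidueField (AP w)) ≠ 0 := by
    intro h0
    have h1 : residue (AP w) (D : AP w) = 0 := by rw [map_intCast]; exact h0
    rw [residue_eq_zero_iff, ValuationSubring.valuation_lt_one_iff, AP_lt'] at h1
    have h2 : w.valuation N (D : N) < 1 := by simpa using h1
    rw [hDval] at h2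
    exact lt_irrefl _ h2
  have hφr : ∀ s ∈ Rt, (φ ^ d) s ∈ Rt := by
    intro s hs'
    rw [hrt] at hs' ⊢
    have h1 := Polynomial.aeval_algHom_apply ((φ ^ d : N ≃ₐ[k] N) : N →ₐ[k] N) s f
    rw [hs', map_zero] at h1
    exact h1
  let ρ : 𝓞 N := ⟨(D : N) * r, hD r ((hrt r).1 hr)⟩
  let ρ' : 𝓞 N := ⟨(D : N) * (φ ^ d) r, hD _ ((hrt _).1 (hφr r hr))⟩
  have h1 : ρ' - ρ ^ p ^ d ∈ w.asIdeal := by
    refine frob_iter φ _ _ hφ d ρ ρ' ?_
    show (D : N) * (φ ^ d) r = (φ ^ d) ((D : N) * r)
    rw [map_mul, map_intCast]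
  have hres : ∀ (s : N) (hs' : s ∈ Rt) (x : 𝓞 N), (x : N) = (D : N) * s →
      toRes w x = (D : ResidueField (AP w)) * residue (AP w) (α s) := by
    intro s hs' x hx
    have h2 : (⟨(x : N), AP_int w x⟩ : AP w) = (D : AP w) * α s := by
      apply Subtype.ext
      show (x : N) = _
      rw [hx]
      push_cast
      rw [hα s hs']
    show residue (AP w) (⟨(x : N), AP_int w x⟩ : AP w) = _
    rw [h2, map_mul, map_intCast]
  have h2 : toRes w ρ' = (toRes w ρ) ^ p ^ d := by
    rw [← sub_eq_zero, ← map_pow, ← map_sub, ← RingHom.mem_ker, toRes_ker]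
    exact h1
  rw [hres _ (hφr r hr) ρ' rfl, hres r hr ρ rfl, mul_pow, hrp, hDres] at h2
  have h3 : residue (AP w) (α ((φ ^ d) r)) = residue (AP w) (α r) := mul_left_cancel₀ hD0 h2
  by_contra hne
  have hsep : ((g.map (residue (AP v))).map (jr v w)).Separable := hgs.map
  rw [hred] at hsep
  have hsep2 : (∏ s ∈ Rt, (X - C (residue (AP w) (α s)))).Separable :=
    hsep.of_mul_right
  have hinj := (separable_prod_X_sub_C_iff' (s := Rt)
    (f := fun s => residue (AP w) (α s))).1 hsep2
  exact hne (hinj _ (hφr r hr) _ hr h3)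

end SUE
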