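import Pool.Agent.MP_c1dca2_ag.SC4.X5

/-!
# [SUE-V7] Almost all primes are unramified
-/

set_option autoImplicit false

open NumberField

attribute [local instance] FractionRing.liftAlgebra

namespace SUE

theorem unram (k L : Type) [Field k] [NumberField k] [Field L] [NumberField L] [Algebra k L] :
    ∃ B : Set (Ideal (𝓞 L)), B.Finite ∧ ∀ P : Ideal (𝓞 L), P.IsPrime → P ≠ ⊥ → P ∉ B →
      ∀ a : 𝓞 k, a ∈ P.comap (algebraMap (𝓞 k) (𝓞 L)) →
        a ∉ (P.comap (algebraMap (𝓞 k) (𝓞 L))) ^ 2 → algebraMap (𝓞 k) (𝓞 L) a ∉ P ^ 2 := by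
  have hsep : Algebra.IsSeparable (FractionRing (𝓞 k)) (FractionRing (𝓞 L)) := inferInstance
  have hD : differentIdeal (𝓞 k) (𝓞 L) ≠ ⊥ := differentIdeal_ne_bot
  refine ⟨{P | P.IsPrime ∧ P ∣ differentIdeal (𝓞 k) (𝓞 L)}, ?_, ?_⟩
  · have h2 := Ideal.finite_factors hD
    refine (h2.image (fun v : IsDedekindDomain.HeightOneSpectrum (𝓞 L) => v.asIdeal)).subset ?_
    rintro R ⟨hR, hzR⟩
    refine ⟨⟨R, hR, ?_⟩, hzR, rfl⟩
    rintro rfl
    rw [← Ideal.zero_eq_bot, zero_dvd_iff] at hzR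
    exact hD hzR
  intro P hP hP0 hPB a ha ha2 hcon
  set p := P.comap (algebraMap (𝓞 k) (𝓞 L)) with hp
  have hpp : p.IsPrime := Ideal.comap_isPrime _ _
  have hp0 : p ≠ ⊥ := by
    intro h0
    apply ha2
    rw [h0] at ha
    rw [Ideal.mem_bot.1 ha]
    exact Ideal.zero_mem _
  have hpm : p.IsMaximal := hpp.isMaximal hp0
  apply hPB
  refine ⟨hP, ?_⟩
  have h1 : Ideal.span {a} ⊔ p ^ 2 = p ^ 1 := by
    refine Ideal.eq_prime_pow_of_succ_lt_of_le hp0 ?_ ?_
    · refine lt_of_le_of_ne le_sup_right ?_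
      intro h
      apply ha2
      rw [show (2 : ℕ) = 1 + 1 from rfl, h]
      exact Ideal.mem_sup_left (Ideal.mem_span_singleton_self a)
    · rw [pow_one, sup_le_iff]
      exact ⟨(Ideal.span_singleton_le_iff_mem _).2 ha, Ideal.pow_le_self two_ne_zero⟩
  rw [pow_one] at h1
  have hle : p.map (algebraMap (𝓞 k) (𝓞 L)) ≤ P := Ideal.map_comap_le
  have h2 : p.map (algebraMap (𝓞 k) (𝓞 L)) ≤ P ^ 2 := by
    conv_lhs => rw [← h1]
    rw [Ideal.map_sup, sup_le_iff]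
    constructor
    · rw [Ideal.map_span, Set.image_singleton, Ideal.span_singleton_le_iff_mem]
      exact hcon
    · rw [Ideal.map_pow]
      exact Ideal.pow_right_mono hle 2
  have h3 := pow_sub_one_dvd_differentIdeal (𝓞 k) P 2 hp0 (Ideal.dvd_iff_le.2 h2)
  simpa using h3

end SUE
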