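import Pool.Agent.MP_c1dca2_ag.SUE.V6
import Pool.Agent.MP_c1dca2_ag.SUE.V7

/-!
# [SUE-V8] Descent of good reduction and of valuations
-/

set_option autoImplicit false
set_option linter.unusedSectionVars false

open Polynomial NumberField IsLocalRing IsDedekindDomain

namespace SUE

variable {K L : Type} [Field K] [NumberField K] [Field L] [NumberField L] [Algebra K L]

/-- Good reduction descends to a prime with the same residue field. -/
theorem GoodFor.descend (v : HeightOneSpectrum (𝓞 K)) (w : HeightOneSpectrum (𝓞 L))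
    [hw : w.asIdeal.LiesOver v.asIdeal] (hb : Function.Bijective (jr v w)) (S : Set ℕ) (h : K[X])
    (hh : GoodFor S (h.map (algebraMap K L)) (AP w)) : GoodFor S h (AP v) := by
  obtain ⟨g', hg1, hg2, hg3, hg4⟩ := hh
  have hcoef : ∀ c ∈ h.coeffs, c ∈ AP v := by
    intro c hc
    obtain ⟨i, hi⟩ : ∃ i, h.coeff i = c := by
      rw [Polynomial.mem_coeffs_iff] at hc
      obtain ⟨i, -, hi⟩ := hc
      exact ⟨i, hi.symm⟩
    have h1 : algebraMap K L c = ((g'.coeff i : AP w) : L) := by
      rw [← hi, ← coeff_map, ← hg1, coeff_map]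
      rfl
    have h2 : w.valuation L (algebraMap K L c) ≤ 1 := by
      rw [h1]
      exact (mem_AP w _).1 (g'.coeff i).2
    rw [val_map v w] at h2
    rw [mem_AP]
    by_contra hcon
    push Not at hcon
    exact absurd h2 (not_le.2 (one_lt_pow' hcon (e_ne v w)))
  obtain ⟨g, hg⟩ := SC4.X5_lift (AP v) h hcoef
  have hgg : g.map (jj v w) = g' := by
    apply Polynomial.map_injective (AP w).subtype (AP w).subtype_injective
    rw [hg1, Polynomial.map_map]
    have h1 : ((AP w).subtype).comp (jj v w) = (algebraMap K L).comp (AP v).subtype := rfl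
    rw [h1, ← Polynomial.map_map, hg]
  have hjinj : Function.Injective (jj v w) := by
    intro a b hab
    apply Subtype.ext
    apply (algebraMap K L).injective
    exact congrArg Subtype.val hab
  have hres : (g.map (residue (AP v))).map (jr v w) = g'.map (residue (AP w)) := by
    rw [← hgg, Polynomial.map_map, Polynomial.map_map]
    rfl
  refine ⟨g, hg, ?_, ?_, ?_⟩
  · rw [← hres] at hg2
    exact (Polynomial.separable_map (jr v w)).1 hg2
  · rw [← natDegree_map (jr v w), hres, hg3, ← hgg, natDegree_map_eq_of_injective hjinj]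
  · intro q hq hqg
    let θ : ResidueField (AP v) ≃+* ResidueField (AP w) := RingEquiv.ofBijective (jr v w) hb
    have h1 : Irreducible (q.map (jr v w)) :=
      (MulEquiv.irreducible_iff (Polynomial.mapEquiv θ)).2 hq
    have h2 : q.map (jr v w) ∣ g'.map (residue (AP w)) := by
      rw [← hres]
      exact Polynomial.map_dvd _ hqg
    obtain ⟨s, hs1, hs2⟩ := hg4 _ h1 h2
    rw [natDegree_map] at hs2
    exact ⟨s, hs1, hs2⟩

theorem val_descend (v : HeightOneSpectrum (𝓞 K)) (w : HeightOneSpectrum (𝓞 L))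
    [hw : w.asIdeal.LiesOver v.asIdeal] (c : K) (μ : ℕ)
    (hc : w.valuation L (algebraMap K L c) = WithZero.exp (-(μ : ℤ))) :
    ∃ ν : ℕ, v.valuation K c = WithZero.exp (-(ν : ℤ)) ∧ ∀ ℓ : ℕ, ¬ ℓ ∣ μ → ¬ ℓ ∣ ν := by
  rw [val_map v w] at hc
  have he := e_ne v w
  set e := v.asIdeal.ramificationIdx' w.asIdeal with hedef
  have h0 : v.valuation K c ≠ 0 := by
    intro h0
    rw [h0, zero_pow he] at hc
    exact WithZero.exp_ne_zero hc.symm
  obtain ⟨n, hn⟩ : ∃ n : ℤ, v.valuation K c = WithZero.exp n := ⟨_, (WithZero.exp_log h0).symm⟩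
  rw [hn, ← WithZero.exp_nsmul, WithZero.exp_inj, nsmul_eq_mul] at hc
  have hepos : (0 : ℤ) < e := by exact_mod_cast Nat.pos_of_ne_zero he
  have hn0 : n ≤ 0 := by
    by_contra h1
    push Not at h1
    have h2 : 0 < (e : ℤ) * n := mul_pos hepos h1
    have h3 : (0 : ℤ) ≤ μ := Int.natCast_nonneg _
    omega
  refine ⟨n.natAbs, ?_, ?_⟩
  · rw [hn]
    congr 1
    omega
  · intro ℓ hℓ hd
    apply hℓ
    have h1 : μ = e * n.natAbs := by
      have h2 : (μ : ℤ) = e * (n.natAbs : ℤ) := by
        have h3 : ((n.natAbs : ℕ) : ℤ) = -n := by omega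
        rw [h3]
        linear_combination hc
      exact_mod_cast h2
    rw [h1]
    exact hd.mul_left _

/-- The evaluation of the first variable. -/
noncomputable abbrev ev {K : Type} [Field K] {L : Type} [Field L] [Algebra K L] (G : K[X][X])
    (t : L) : L[X] :=
  G.map (aeval t : K[X] →ₐ[K] L).toRingHom

theorem ev_map {K : Type} [Field K] {L : Type} [Field L] [Algebra K L] (G : K[X][X]) (a : K) :
    (ev G a : K[X]).map (algebraMap K L) = ev G (algebraMap K L a) := by
  rw [ev, ev, Polynomial.map_map]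
  congr 1
  ext q
  · simp
  · simp

theorem ev_eq {K : Type} [Field K] {L : Type} [Field L] [Algebra K L] (G : K[X][X]) (t : L) :
    ev G t = (G.map (mapRingHom (algebraMap K L))).map (evalRingHom t) := by
  rw [ev, Polynomial.map_map]
  congr 1
  ext q
  · simp
  · simp

theorem jr_bij (v : HeightOneSpectrum (𝓞 K)) (w : HeightOneSpectrum (𝓞 L))
    [hw : w.asIdeal.LiesOver v.asIdeal] (hp : (Ideal.absNorm w.asIdeal).Prime) :
    Function.Bijective (jr v w) := by
  refine (jr v w).injective.bijective_of_nat_card_le ?_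
  rw [AP_card, AP_card, ← SC4.norm_comap (F := K) w.asIdeal hp]
  exact le_of_eq (congrArg _ hw.over.symm)

end SUE
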