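import Pool.Agent.MP_c1dca2_ag.SUU.U4
import Pool.Agent.MP_c1dca2_ag.SUE.V8

/-!
# [SUE-V9] The classes modulo `p^2` which are good at a prime of degree one (variant of SUU-U4)
-/

set_option autoImplicit false
set_option linter.unusedSectionVars false

open Polynomial NumberField SUU

namespace SUE

variable {k : Type} [Field k] [NumberField k] {ι : Type} [Fintype ι]
  (b : Module.Basis ι ℤ (𝓞 k)) {r : Type} [Fintype r] {n : r → ℕ}

/-- What is required at the prime `P`: the class of `a` is in `R` and the classes of the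
coefficients are in `S`. -/
def GoodY (P : Ideal (𝓞 k)) (R : Set (𝓞 k ⧸ P ^ 2)) (S : Set ((i : r) → Fin (n i) → 𝓞 k ⧸ P))
    (z : Idx n ι → ℤ) : Prop :=
  Ideal.Quotient.mk (P ^ 2) (aOf b z) ∈ R ∧ (fun i j => Ideal.Quotient.mk P (cOf b z i j)) ∈ S

theorem exists_class (δ : ℝ) (hδ : 0 < δ) (p : ℕ) (hp : p.Prime) (P : Ideal (𝓞 k))
    (hP : Ideal.absNorm P = p) (R : Set (𝓞 k ⧸ P ^ 2)) (hR : p - 1 ≤ Nat.card R)
    (S : Set ((i : r) → Fin (n i) → 𝓞 k ⧸ P))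
    (hT : δ * ((p : ℝ) ^ ∑ i, n i) ≤ Nat.card S) :
    ∃ A : Set (Idx n ι → ZMod (p ^ 2)),
      (Nat.card A : ℝ) ≤ (1 - (δ / 2) / p) * ((p : ℝ) ^ 2) ^ (Fintype.card (Idx n ι)) ∧
      ∀ z : Idx n ι → ℤ, ¬ GoodY b P R S z → (fun x => (z x : ZMod (p ^ 2))) ∈ A := by
  classical
  have : NeZero (p ^ 2) := ⟨pow_ne_zero 2 hp.ne_zero⟩
  have hpP : ((p : ℕ) : 𝓞 k) ∈ P := by
    have := Ideal.absNorm_mem P
    rwa [hP] at this
  have h1 : (((p ^ 2 : ℕ)) : 𝓞 k) ∈ P := by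
    rw [Nat.cast_pow]
    exact Ideal.pow_mem_of_mem P hpP 2 (by norm_num)
  have h2 : (((p ^ 2 : ℕ)) : 𝓞 k) ∈ P ^ 2 := by
    rw [Nat.cast_pow]
    exact Ideal.pow_mem_pow hpP 2
  obtain ⟨φ₁, hφ₁, hs₁⟩ := SC4.X3_hom b (p ^ 2) P h1
  obtain ⟨φ₂, hφ₂, hs₂⟩ := SC4.X3_hom b (p ^ 2) (P ^ 2) h2
  let Ψ : (Idx n ι → ZMod (p ^ 2)) →+ (𝓞 k ⧸ P ^ 2) × ((i : r) → Fin (n i) → 𝓞 k ⧸ P) :=
    { toFun := fun x => (φ₂ (fun u => x (none, u)), fun i j => φ₁ (fun u => x (some ⟨i, j⟩, u)))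
      map_zero' := by
        apply Prod.ext
        · exact map_zero φ₂
        · funext i j
          exact map_zero φ₁
      map_add' := fun x y => by
        apply Prod.ext
        · exact map_add φ₂ _ _
        · funext i j
          exact map_add φ₁ _ _ }
  have hΨs : Function.Surjective Ψ := by
    rintro ⟨α, g⟩
    obtain ⟨x₀, hx₀⟩ := hs₂ α
    choose x hx using fun (i : r) (j : Fin (n i)) => hs₁ (g i j)
    refine ⟨fun s => match s with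
      | (none, u) => x₀ u
      | (some ⟨i, j⟩, u) => x i j u, ?_⟩
    apply Prod.ext
    · exact hx₀
    · funext i j
      exact hx i j
  have hΨ : ∀ z : Idx n ι → ℤ, Ψ (fun x => (z x : ZMod (p ^ 2))) =
      (Ideal.Quotient.mk (P ^ 2) (aOf b z), fun i j => Ideal.Quotient.mk P (cOf b z i j)) := by
    intro z
    apply Prod.ext
    · exact hφ₂ (fun u => z (none, u))
    · funext i j
      exact hφ₁ (fun u => z (some ⟨i, j⟩, u))
  let G : Set ((𝓞 k ⧸ P ^ 2) × ((i : r) → Fin (n i) → 𝓞 k ⧸ P)) := {x | x.1 ∈ R ∧ x.2 ∈ S}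
  have hG : Nat.card G = Nat.card R * Nat.card S := by
    rw [← Nat.card_prod]
    exact Nat.card_congr
      { toFun := fun x => (⟨x.1.1, x.2.1⟩, ⟨x.1.2, x.2.2⟩)
        invFun := fun x => ⟨(x.1.1, x.2.1), x.1.2, x.2.2⟩
        left_inv := fun _ => rfl
        right_inv := fun _ => rfl }
  have hfinP : Finite (𝓞 k ⧸ P) := by
    apply Nat.finite_of_card_ne_zero
    rw [card_P p P hP]
    exact hp.ne_zero
  have hB : Nat.card ((𝓞 k ⧸ P ^ 2) × ((i : r) → Fin (n i) → 𝓞 k ⧸ P)) =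
      p ^ 2 * p ^ ∑ i, n i := by
    rw [Nat.card_prod, card_P2 p P hP, Nat.card_pi, ← Finset.prod_pow_eq_pow_sum]
    congr 1
    refine Finset.prod_congr rfl fun i _ => ?_
    rw [Nat.card_fun, Nat.card_eq_fintype_card (α := Fin (n i)), Fintype.card_fin,
      card_P p P hP]
  have hA : Nat.card (Idx n ι → ZMod (p ^ 2)) = (p ^ 2) ^ Fintype.card (Idx n ι) := by
    rw [Nat.card_eq_fintype_card, Fintype.card_fun, ZMod.card]
  have hpre := card_preimage Ψ hΨs G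
  rw [hB, hA, hG] at hpre
  refine ⟨{x | Ψ x ∈ G}ᶜ, ?_, ?_⟩
  · set g : ℕ := Nat.card {a : Idx n ι → ZMod (p ^ 2) // Ψ a ∈ G} with hg
    set D : ℕ := ∑ i, n i with hD
    set W : ℕ := Fintype.card (Idx n ι) with hW
    have e1 : Nat.card (({x | Ψ x ∈ G}ᶜ : Set (Idx n ι → ZMod (p ^ 2)))) + g = (p ^ 2) ^ W := by
      rw [← hA]
      have := Set.ncard_add_ncard_compl ({x | Ψ x ∈ G} : Set (Idx n ι → ZMod (p ^ 2)))
      rw [add_comm]
      exact this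
    have hp2 : (2 : ℝ) ≤ p := by exact_mod_cast hp.two_le
    have e1r : (Nat.card (({x | Ψ x ∈ G}ᶜ : Set (Idx n ι → ZMod (p ^ 2)))) : ℝ) + g =
        ((p : ℝ) ^ 2) ^ W := by exact_mod_cast e1
    have e2 : (g : ℝ) * ((p : ℝ) ^ 2 * (p : ℝ) ^ D) = (Nat.card R : ℝ) *
        (Nat.card S : ℝ) * ((p : ℝ) ^ 2) ^ W := by
      exact_mod_cast hpre
    have hRr : (p : ℝ) - 1 ≤ (Nat.card R : ℝ) := by
      have h3 : ((p - 1 : ℕ) : ℝ) = (p : ℝ) - 1 := by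
        rw [Nat.cast_sub hp.one_le, Nat.cast_one]
      rw [← h3]
      exact_mod_cast hR
    have e3 : ((δ / 2) / p) * ((p : ℝ) ^ 2) ^ W ≤ g := by
      have hpos : (0 : ℝ) < (p : ℝ) ^ 2 * (p : ℝ) ^ D := by positivity
      have h4 : (g : ℝ) = (Nat.card R : ℝ) *
        (Nat.card S : ℝ) *
          ((p : ℝ) ^ 2) ^ W / ((p : ℝ) ^ 2 * (p : ℝ) ^ D) := by
        rw [eq_div_iff hpos.ne']
        exact e2
      rw [h4, le_div_iff₀ hpos]
      have h5 : ((p : ℝ) - 1) * (δ * (p : ℝ) ^ D) * ((p : ℝ) ^ 2) ^ W ≤ (Nat.card R : ℝ) *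
        (Nat.card S : ℝ) *
          ((p : ℝ) ^ 2) ^ W := by
        refine mul_le_mul_of_nonneg_right ?_ (by positivity)
        exact mul_le_mul hRr hT (by positivity) (by positivity)
      refine le_trans ?_ h5
      have h6 : ((δ / 2) / p) * ((p : ℝ) ^ 2) ^ W * ((p : ℝ) ^ 2 * (p : ℝ) ^ D) =
          (p / 2) * (δ * (p : ℝ) ^ D * ((p : ℝ) ^ 2) ^ W) := by
        have : (p : ℝ) ≠ 0 := by linarith
        field_simp
      have h7 : ((p : ℝ) - 1) * (δ * (p : ℝ) ^ D) * ((p : ℝ) ^ 2) ^ W =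
          ((p : ℝ) - 1) * (δ * (p : ℝ) ^ D * ((p : ℝ) ^ 2) ^ W) := by ring
      rw [h6, h7]
      exact mul_le_mul_of_nonneg_right (by linarith) (by positivity)
    linarith
  · intro z hz
    rw [Set.mem_compl_iff, Set.mem_ofPred_eq, hΨ z]
    rintro ⟨h3, h5⟩
    exact hz ⟨h3, h5⟩

variable {L : Type} [Field L] [NumberField L] [Algebra k L]

/-- The classes of the `a` such that `a - s` has valuation one. -/
theorem exists_R (p : ℕ) (hp : p.Prime) (P : Ideal (𝓞 L)) (hP : Ideal.absNorm P = p)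
    (hun : ∀ a : 𝓞 k, a ∈ P.comap (algebraMap (𝓞 k) (𝓞 L)) →
        a ∉ (P.comap (algebraMap (𝓞 k) (𝓞 L))) ^ 2 → algebraMap (𝓞 k) (𝓞 L) a ∉ P ^ 2) (s : 𝓞 L) :
    ∃ R : Set (𝓞 k ⧸ (P.comap (algebraMap (𝓞 k) (𝓞 L))) ^ 2), p - 1 ≤ Nat.card R ∧
      ∀ a : 𝓞 k, Ideal.Quotient.mk ((P.comap (algebraMap (𝓞 k) (𝓞 L))) ^ 2) a ∈ R →
        algebraMap (𝓞 k) (𝓞 L) a - s ∈ P ∧ algebraMap (𝓞 k) (𝓞 L) a - s ∉ P ^ 2 := by
  classical
  have hPp : P.IsPrime := Ideal.isPrime_of_irreducible_absNorm (by rw [hP]; exact hp)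
  set I := P.comap (algebraMap (𝓞 k) (𝓞 L)) with hI
  have hIn : Ideal.absNorm I = p := by
    rw [hI, SC4.norm_comap P (by rw [hP]; exact hp), hP]
  have hle : I ^ 2 ≤ (P ^ 2).comap (algebraMap (𝓞 k) (𝓞 L)) := by
    rw [← Ideal.map_le_iff_le_comap, Ideal.map_pow]
    exact Ideal.pow_right_mono Ideal.map_comap_le 2
  let Φ : (𝓞 k ⧸ I ^ 2) →+* (𝓞 L ⧸ P ^ 2) := Ideal.quotientMap (P ^ 2) (algebraMap (𝓞 k) (𝓞 L)) hle
  have hΦi : Function.Injective Φ := by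
    rw [injective_iff_map_eq_zero]
    intro x hx
    obtain ⟨a, rfl⟩ := Ideal.Quotient.mk_surjective x
    have h1 : algebraMap (𝓞 k) (𝓞 L) a ∈ P ^ 2 := Ideal.Quotient.eq_zero_iff_mem.1 hx
    rw [Ideal.Quotient.eq_zero_iff_mem]
    by_contra h2
    exact hun a (show algebraMap (𝓞 k) (𝓞 L) a ∈ P from Ideal.pow_le_self two_ne_zero h1) h2 h1
  have hfin : Finite (𝓞 L ⧸ P ^ 2) := by
    apply Nat.finite_of_card_ne_zero
    rw [card_P2 p P hP]
    exact pow_ne_zero 2 hp.ne_zero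
  have hΦ : Function.Bijective Φ := hΦi.bijective_of_nat_card_le (by
    rw [card_P2 p _ hIn, card_P2 p _ hP])
  let e : (𝓞 k ⧸ I ^ 2) ≃ (𝓞 L ⧸ P ^ 2) :=
    (Equiv.ofBijective Φ hΦ).trans (Equiv.subRight (Ideal.Quotient.mk (P ^ 2) s))
  refine ⟨{x | Ideal.Quotient.factor (Ideal.pow_le_self (I := P) two_ne_zero) (e x) = 0 ∧
    e x ≠ 0}, ?_, ?_⟩
  · rw [← card_nonzero p hp P hP]
    exact le_of_eq (Nat.card_congr (e.symm.subtypeEquiv fun x => by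
      simp only [Set.mem_ofPred_eq, Equiv.apply_symm_apply]))
  · rintro a ⟨h1, h2⟩
    have h3 : e (Ideal.Quotient.mk (I ^ 2) a) =
        Ideal.Quotient.mk (P ^ 2) (algebraMap (𝓞 k) (𝓞 L) a - s) := by
      rw [map_sub]
      rfl
    rw [h3] at h1 h2
    rw [Ideal.Quotient.factor_mk] at h1
    exact ⟨Ideal.Quotient.eq_zero_iff_mem.1 h1, fun h => h2 (Ideal.Quotient.eq_zero_iff_mem.2 h)⟩

end SUE
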